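import Pool.Agent.MK3.Fan2

/-! The fan of case 1. -/

open Classical

namespace Pool.Agent.MK3

open Relation Pool.Agent.ParBFS

variable {V : Type} {R : V → V → Prop}

/-- the relation on `Option V` -/
private def FS (R : V → V → Prop) (A B : Set V) (x m y : V) : Option V → Option V → Prop
  | some a, some b => a ∈ insert x B ∧ b ∈ insert x B ∧ R a b
  | some u, none => u ∈ Ug R B x m ∧ R u y
  | none, _ => False

private theorem fs_emb {A B Z : Set V} {x m y : V} {z : Option V}
    (hZ : ∀ v ∈ Z, v ∈ insert x B ∧ some v ≠ z) {a b : V} (h : Rch R Z a b) :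
    Rch (FS R A B x m y) {v | v ≠ z} (some a) (some b) := by
  induction h with
  | refl => exact ReflTransGen.refl
  | tail _ hab ih =>
    exact ih.tail ⟨(hZ _ hab.1).2, (hZ _ hab.2.1).2, (hZ _ hab.1).1, (hZ _ hab.2.1).1, hab.2.2⟩

private theorem fs_pred {α : Type} {S : α → α → Prop} (l : List α) (t : α) :
    ∀ s : α, (s :: (l ++ [t])).IsChain S → ∀ v ∈ l, ∃ a, S a v := by
  induction l with
  | nil => intro s _ v hv; cases hv
  | cons c l ih =>
    intro s h v hv
    rw [List.cons_append, List.isChain_cons_cons] at h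
    rcases List.mem_cons.1 hv with h1 | h1
    · exact ⟨s, h1 ▸ h.1⟩
    · exact ih c h.2 v h1

private theorem fs_pth {A B : Set V} {x m y : V} {l : List (Option V)} {t : Option V}
    (h : LP (FS R A B x m y) (some x) l t) (hn : ∀ v ∈ l, v ≠ none) :
    Pth R {v | some v ∈ l} x (t.getD y) := by
  refine ⟨l.map fun o => o.getD y, ?_, ?_⟩
  · have h1 := List.isChain_map_of_isChain (S := R) (fun o : Option V => o.getD y)
      (fun a b hab => ?_) h
    · simpa [List.map_append] using h1
    · cases a with
      | none => exact hab.elim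
      | some a =>
        cases b with
        | none => exact hab.2
        | some b => exact hab.2.2
  · intro z hz
    obtain ⟨o, ho, h1⟩ := List.mem_map.1 hz
    cases o with
    | none => exact (hn _ ho rfl).elim
    | some v =>
      have h2 : v = z := h1
      rw [← h2]
      exact ho

private theorem fs_core {A B : Set V} {x m y : V} {l1 l2 : List (Option V)}
    (h1 : LP (FS R A B x m y) (some x) l1 (some m)) (h2 : LP (FS R A B x m y) (some x) l2 none)
    (hd : ∀ v ∈ l1, v ∉ l2) (hg1 : ∀ v ∈ l1, v ≠ none ∧ v ≠ some m ∧ v ≠ some x)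
    (hg2 : ∀ v ∈ l2, v ≠ none ∧ v ≠ some m ∧ v ≠ some x) :
    ∃ P1 P2 : Set V, P1 ⊆ B \ {m} ∧ P2 ⊆ B \ {m} ∧ (∀ z ∈ P1, z ∉ P2) ∧ Pth R P1 x m ∧
      Pth R P2 x y := by
  have key : ∀ (l : List (Option V)) (t : Option V), LP (FS R A B x m y) (some x) l t →
      (∀ v ∈ l, v ≠ none ∧ v ≠ some m ∧ v ≠ some x) → {v | some v ∈ l} ⊆ B \ {m} := by
    intro l t h hg v hv
    obtain ⟨a, ha⟩ := fs_pred l t (some x) h (some v) hv
    have h3 := hg _ hv
    have h4 : v ∈ insert x B := by
      cases a with
      | none => exact ha.elim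
      | some a => exact ha.2.1
    refine ⟨?_, fun h5 => h3.2.1 ?_⟩
    · rcases h4 with h5 | h5
      · exact (h3.2.2 (by rw [h5])).elim
      · exact h5
    · rw [Set.mem_singleton_iff.1 h5]
  exact ⟨_, _, key l1 _ h1 hg1, key l2 _ h2 hg2, fun z hz hz' => hd _ hz hz',
    fs_pth h1 fun v hv => (hg1 v hv).1, fs_pth h2 fun v hv => (hg2 v hv).1⟩

/-- The fan. PROOF. Work in `Option V`: `T a b` for `some a, some b ∈ insert x B` with `R a b`, and `T (some u) none` for `u ∈ Ug`, `R u y`. `fan2` for `s = some x` and the target set `{some m, none}`: for `z ≠ some x`: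
`z = some m`: `none` is reached: `y ∈ Yg` gives `u ∈ Ug` with `R u y`, `x` reaches `u` in `insert x B \ {m}`. `z = none`: `some m` is reached (`h.dom` for any `z ∈ B`, `z ≠ m`, for example `z = u`).
`z = some z'` with `z' ∈ B`, `z' ≠ m`: `h.dom z'`. `z' ∉ insert x B`: as for `none`. The two paths end at `some m` and `none`; the second one ends with `some u, none`, `u ∈ Ug`, `R u y`.
All inner vertices of both lists are `some v`, `v ∈ B` (they have arcs), `v ≠ m`. `P1` = inner vertices of the path to `m`, `P2` = inner vertices of the path to `none` (they contain `u`). -/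
theorem fan_sep [Finite V] {W A B : Set V} {x m y : V} (h : Sep R W A B x m)
    (hy : y ∈ Yg R A B x m) :
    ∃ P1 P2 : Set V, P1 ⊆ B \ {m} ∧ P2 ⊆ B \ {m} ∧ (∀ z ∈ P1, z ∉ P2) ∧ Pth R P1 x m ∧
      Pth R P2 x y := by
  obtain ⟨hyA, u, hu, huy⟩ := hy
  obtain ⟨huB, hum, hur⟩ := hu
  have hxm : x ≠ m := fun h1 => h.hxB (h1 ▸ h.hm)
  have hfan := fan2 (R := FS R A B x m y) (s := some x) (T := {some m, none})
    (by
      intro h1
      rcases h1 with h1 | h1
      · exact hxm (Option.some.inj h1)
      · exact Option.some_ne_none _ h1)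
    (by
      intro z hz
      by_cases hzm : z = some m
      · refine ⟨none, Or.inr rfl, ?_, ?_⟩
        · rw [hzm]
          exact (Option.some_ne_none m).symm
        · refine ReflTransGen.tail (b := some u) (fs_emb (Z := insert x B \ {m}) ?_ hur) ?_
          · intro v hv
            refine ⟨hv.1, fun h1 => hv.2 ?_⟩
            rw [hzm] at h1
            exact Option.some.inj h1
          · refine ⟨?_, ?_, ⟨huB, hum, hur⟩, huy⟩
            · show some u ≠ z
              rw [hzm]
              exact fun h1 => hum (Option.some.inj h1)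
            · show none ≠ z
              rw [hzm]
              exact (Option.some_ne_none m).symm
      · refine ⟨some m, Or.inl rfl, fun h1 => hzm h1.symm, ?_⟩
        by_cases hzB : ∃ z', z = some z' ∧ z' ∈ B
        · obtain ⟨z', hz', hzB⟩ := hzB
          refine fs_emb (Z := insert x B \ {z'}) ?_ (h.dom z' hzB fun h1 => hzm (by rw [hz', h1]))
          intro v hv
          refine ⟨hv.1, fun h1 => hv.2 ?_⟩
          rw [hz'] at h1
          exact Option.some.inj h1
        · refine fs_emb (Z := insert x B \ {u}) ?_ (h.dom u huB hum)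
          intro v hv
          refine ⟨hv.1, fun h1 => ?_⟩
          rcases hv.1 with h2 | h2
          · exact hz (by rw [← h1, h2])
          · exact hzB ⟨v, h1.symm, h2⟩)
    ⟨none, (Option.some_ne_none x).symm⟩
  obtain ⟨t1, ht1, t2, ht2, hne, l1, l2, hl1, hl2, hnd, hoff⟩ := hfan
  have hg : ∀ v ∈ l1 ++ l2, v ≠ none ∧ v ≠ some m ∧ v ≠ some x := by
    intro v hv
    obtain ⟨h1, h2⟩ := hoff v hv
    exact ⟨fun h3 => h1 (Or.inr h3), fun h3 => h1 (Or.inl h3), h2⟩
  have hdis := (List.nodup_append.1 hnd).2.2
  rcases ht1 with ht1 | ht1 <;> rcases ht2 with ht2 | ht2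
  · exact (hne (ht1.trans ht2.symm)).elim
  · subst ht1
    have ht2' : t2 = none := ht2
    subst ht2'
    exact fs_core hl1 hl2 (fun v hv hv' => hdis v hv v hv' rfl)
      (fun v hv => hg v (List.mem_append_left _ hv)) fun v hv => hg v (List.mem_append_right _ hv)
  · subst ht2
    have ht1' : t1 = none := ht1
    subst ht1'
    exact fs_core hl2 hl1 (fun v hv hv' => hdis v hv' v hv rfl)
      (fun v hv => hg v (List.mem_append_right _ hv)) fun v hv => hg v (List.mem_append_left _ hv)
  · exact (hne (ht1.trans ht2.symm)).elim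

end Pool.Agent.MK3
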