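import Pool.Agent.MK3.Crit
import Pool.Agent.MK3.FanSep

/-! Case 1. -/

open Classical

namespace Pool.Agent.MK3

open Relation Pool.Agent.ParBFS

variable {V : Type} {R : V → V → Prop}

theorem tri_add {R' S : V → V → Prop} {W0 W B : Set V} {f : Fin 3 → V}
    {Z : Fin 3 → Fin 3 → Set V} (h : TriOn R' W0 f Z) (P : Fin 3 → Fin 3 → Set V)
    (hW : W0 ⊆ W) (hB : B ⊆ W) (hd : ∀ z ∈ B, z ∉ W0) (hP : ∀ i j, P i j ⊆ B)
    (hPd : ∀ i j k l, (i, j) ≠ (k, l) → ∀ z ∈ P i j, z ∉ P k l)
    (hp : ∀ i j, i ≠ j → Pth S (Z i j ∪ P i j) (f i) (f j)) : Tri S W := by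
  refine ⟨f, fun i j => Z i j ∪ P i j, ?_⟩
  refine ⟨h.inj, fun i => hW (h.mem i), hp, ?_, ?_, ?_⟩
  · intro i j z hz
    rcases hz with hz | hz
    · exact hW (h.sub i j hz)
    · exact hB (hP i j hz)
  · intro i j k hz
    rcases hz with hz | hz
    · exact h.off i j k hz
    · exact hd _ (hP i j hz) (h.mem k)
  · intro i j k l hne z hz hz'
    rcases hz with hz | hz <;> rcases hz' with hz' | hz'
    · exact h.dis i j k l hne z hz hz'
    · exact hd _ (hP k l hz') (h.sub i j hz)
    · exact hd _ (hP i j hz) (h.sub k l hz')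
    · exact hPd i j k l hne z hz hz'

theorem colable_congr {R' : V → V → Prop} {W : Set V} {k : ℕ}
    (h : ∀ a ∈ W, ∀ b ∈ W, R' a b → R a b) (hc : Colable R W k) : Colable R' W k := by
  obtain ⟨c, h1, h2⟩ := hc
  refine ⟨c, h1, fun v hv => h2 v ?_⟩
  exact tmono (fun a b hab => ⟨hab.1, hab.2.1, h a hab.1 b hab.2.1 hab.2.2.1, hab.2.2.2⟩) hv

theorem pth_rel_mono {R' : V → V → Prop} {Z : Set V} {x y : V} (h : ∀ a b, R a b → R' a b)
    (hp : Pth R Z x y) : Pth R' Z x y := by
  obtain ⟨l, h1, h2⟩ := hp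
  exact ⟨l, h1.imp (fun a b hab => h a b hab), h2⟩

/-- Case 1. PROOF. `exists_strong h1` gives `W0 ⊆ insert x A`, not 2-colourable for `RH`, strong. `x ∈ W0`, otherwise `W0 ⊆ A` and on `A` the relation `RH` is `R`, but `R` is 2-colourable on `W \ {x}`.
`W0.ncard < W.ncard` (`m ∈ W`, `m ∉ insert x A`). `ih` for the relation `RH R A B x m` (no loops: `x ∉ A`) and the root `x`: `c ∈ W0`, `c ≠ x`, `TriOn (addArc (RH ..) x c) W0 f Z`. New arcs (not in `R`)
leave `x`: `out_dep`, `out_same` with `R' = addArc (RH R A B x m) x c`. Let `D` be the set of pairs `(i, j)`, `i ≠ j`, with `¬ Pth R (Z i j) (f i) (f j)`; two different pairs in `D` are `(i, j)`, `(i, k)` with `x = f i`, and `j`, `k` are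
the two elements different from `i`, so `D` has at most two elements. (0) `D` empty: `Tri R W`, so `Goal R W m` with `c = x` (`tri_mono`). (1) `D = {(i, j)}` with the new arc `x → y`: relation `addArc R m y`, `sep_path` and the new arc `m → y` give
`Pth (addArc R m y) B x y`: `Z' i j = Z i j ∪ B`. (2) `D = {(i, j), (i, k)}`, new arcs `x → y1`, `x → y2`; `y1 ∈ {f j} ∪ Z i j`, `y2 ∈ {f k} ∪ Z i k`, so `y1 ≠ y2`, and one of them is not `c`, say `y1`, so
`y1 ∈ Yg` (otherwise exchange). `fan_sep` for `y1`: `Z' i j = Z i j ∪ P2`, `Z' i k = Z i k ∪ (P1 ∪ {m})`, relation `addArc R m y2`. -/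
theorem case_one [Finite V] (hR : ∀ v, ¬ R v v) {W A B : Set V} {x m : V} (h : Sep R W A B x m)
    (hs : ∀ a ∈ W, ∀ b ∈ W, Rch R W a b) (hc : Colable R (W \ {x}) 2) (ih : Hyp V W.ncard)
    (h1 : ¬ Colable (RH R A B x m) (insert x A) 2) : Goal R W m := by
  have hW := h.hW
  have hAW : A ⊆ W := by
    rw [hW]; exact fun z hz => Or.inr (Or.inl hz)
  have hBW : B ⊆ W := by
    rw [hW]; exact fun z hz => Or.inr (Or.inr hz)
  have hxW : x ∈ W := by
    rw [hW]; exact Or.inl rfl
  have hIW : insert x A ⊆ W := by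
    intro z hz
    rcases hz with hz | hz
    · exact hz ▸ hxW
    · exact hAW hz
  obtain ⟨W0, hW0, hW0c, -, hst⟩ := exists_strong h1
  have hBd : ∀ z ∈ B, z ∉ W0 := by
    intro z hz hz0
    rcases hW0 hz0 with h2 | h2
    · exact h.hxB (h2 ▸ hz)
    · exact h.hAB z h2 hz
  have hx0 : x ∈ W0 := by
    by_contra hx0
    have hA0 : W0 ⊆ A := by
      intro z hz
      rcases hW0 hz with h2 | h2
      · exact absurd (h2 ▸ hz) hx0
      · exact h2
    apply hW0c
    refine colable_congr (R := R) ?_ (hc.mono ?_ le_rfl)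
    · intro a ha b hb hab
      rcases hab with hab | hab
      · exact hab
      · exact absurd (hab.1 ▸ ha) hx0
    · intro z hz
      refine ⟨hAW (hA0 hz), ?_⟩
      intro hzx
      exact hx0 (hzx ▸ hz)
  have hm0 : m ∉ W0 := hBd m h.hm
  have hlt : W0.ncard < W.ncard := by
    apply Set.ncard_lt_ncard _ (Set.toFinite W)
    refine ⟨hW0.trans hIW, fun hcon => hm0 (hcon (hBW h.hm))⟩
  have hloop : ∀ v, ¬ RH R A B x m v v := by
    intro v hv
    rcases hv with hv | hv
    · exact hR v hv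
    · exact h.hxA (hv.1 ▸ hv.2.1)
  obtain ⟨c, hc0, hcx, f, Z, hT⟩ := ih (RH R A B x m) hloop W0 hlt hW0c hst x hx0
  have hRx : ∀ a ∈ W0, ∀ b ∈ W0, a ≠ x → addArc (RH R A B x m) x c a b → R a b := by
    intro a _ b _ hax hab
    rcases hab with hab | hab
    · rcases hab with hab | hab
      · exact hab
      · exact absurd hab.1 hax
    · exact absurd hab.1 hax
  have hWW : W0 ⊆ W := hW0.trans hIW
  have hsame : ∀ i j k l, i ≠ j → k ≠ l → ¬ Pth R (Z i j) (f i) (f j) →
      ¬ Pth R (Z k l) (f k) (f l) → (i, j) = (k, l) ∨ (i = k ∧ x = f i) := by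
    intro i j k l hij hkl hd1 hd2
    exact out_same hT (out_dep hT hRx hij hd1).1 (out_dep hT hRx hkl hd2).1
  -- case 0
  by_cases hD : ∀ i j, i ≠ j → Pth R (Z i j) (f i) (f j)
  · refine ⟨x, hxW, fun hxm => h.hxB (hxm ▸ h.hm), ?_⟩
    refine tri_add hT (fun _ _ => ∅) hWW hBW hBd (fun _ _ => Set.empty_subset _)
      (fun _ _ _ _ _ _ hz => absurd hz (Set.notMem_empty _)) ?_
    intro i j hij
    rw [Set.union_empty]
    exact pth_rel_mono (fun a b hab => Or.inl hab) (hD i j hij)
  push Not at hD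
  obtain ⟨i, j, hij, hd⟩ := hD
  obtain ⟨hxi, y, hy0, hyx, hyZ, hxy, hnxy, hrep⟩ := out_dep hT hRx hij hd
  by_cases hD1 : ∀ k l, k ≠ l → (k, l) ≠ (i, j) → Pth R (Z k l) (f k) (f l)
  · refine ⟨y, hWW hy0, fun hym => hm0 (hym ▸ hy0), ?_⟩
    refine tri_add hT (fun k l => if (k, l) = (i, j) then B else ∅) hWW hBW hBd ?_ ?_ ?_
    · intro k l
      split_ifs
      · exact subset_rfl
      · exact Set.empty_subset _
    · intro k l k' l' hne z hz hz'
      split_ifs at hz hz' with h2 h3
      · exact hne (h2.trans h3.symm)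
      · exact hz'
      · exact hz
      · exact hz
    · intro k l hkl
      split_ifs with h2
      · obtain ⟨rfl, rfl⟩ := Prod.mk.inj h2
        refine hrep _ B (fun a b hab => Or.inl hab) ?_
        refine Pth.trans (r := m) ?_ h.hm (pth_single (Or.inr ⟨rfl, rfl⟩))
        exact (pth_rel_mono (fun a b hab => Or.inl hab) (sep_path h hs)).mono Set.sdiff_subset
      · rw [Set.union_empty]
        exact pth_rel_mono (fun a b hab => Or.inl hab) (hD1 k l hkl h2)
  push Not at hD1
  obtain ⟨k, l, hkl, hne, hd'⟩ := hD1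
  obtain ⟨-, y', hy0', hyx', hyZ', hxy', hnxy', hrep'⟩ := out_dep hT hRx hkl hd'
  rcases hsame k l i j hkl hij hd' hd with h2 | ⟨rfl, hxf⟩
  · exact absurd h2 hne
  have hjl : l ≠ j := fun hlj => hne (by rw [hlj])
  have hyy : y ≠ y' := by
    intro hyy
    rcases hyZ with h2 | h2 <;> rcases hyZ' with h3 | h3
    · exact hjl (hT.inj (h3.symm.trans (hyy.symm.trans h2)))
    · exact hT.off _ _ j (h2 ▸ hyy ▸ h3)
    · exact hT.off _ _ l (h3 ▸ hyy ▸ h2)
    · exact hT.dis k j k l (fun he => hjl (Prod.mk.inj he).2.symm) y h2 (hyy ▸ h3)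
  have hother : ∀ p q, p ≠ q → (p, q) ≠ (k, j) → (p, q) ≠ (k, l) →
      Pth R (Z p q) (f p) (f q) := by
    intro p q hpq hn1 hn2
    by_contra hcon
    rcases hsame p q k j hpq hij hcon hd with h2 | ⟨rfl, -⟩
    · exact hn1 h2
    · have hqj : q ≠ j := fun he => hn1 (by rw [he])
      have hql : q ≠ l := fun he => hn2 (by rw [he])
      have e1 := p.2
      have e2 := q.2
      have e3 := j.2
      have e4 := l.2
      rw [Ne, Fin.ext_iff] at hpq hqj hql hjl hkl hij
      omega
  -- the main step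
  have hmain : ∀ j l y y', k ≠ j → k ≠ l → l ≠ j → y ∈ W0 → y' ∈ W0 →
      y ∈ Yg R A B x m → (∀ (S : V → V → Prop) (P : Set V), (∀ a b, R a b → S a b) →
        Pth S P x y → Pth S (Z k j ∪ P) (f k) (f j)) →
      (∀ (S : V → V → Prop) (P : Set V), (∀ a b, R a b → S a b) →
        Pth S P x y' → Pth S (Z k l ∪ P) (f k) (f l)) →
      (∀ p q, p ≠ q → (p, q) ≠ (k, j) → (p, q) ≠ (k, l) → Pth R (Z p q) (f p) (f q)) →
      Goal R W m := by
    intro j l y y' hkj hkl hlj hy0 hy0' hyY hrep hrep' hother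
    obtain ⟨P1, P2, hP1, hP2, hP12, hp1, hp2⟩ := fan_sep h hyY
    refine ⟨y', hWW hy0', fun hym => hm0 (hym ▸ hy0'), ?_⟩
    refine tri_add hT (fun p q => if (p, q) = (k, j) then P2 else
      if (p, q) = (k, l) then insert m P1 else ∅) hWW hBW hBd ?_ ?_ ?_
    · intro p q
      split_ifs
      · exact hP2.trans Set.sdiff_subset
      · exact Set.insert_subset h.hm (hP1.trans Set.sdiff_subset)
      · exact Set.empty_subset _
    · intro p q p' q' hne z hz hz'
      by_cases e1 : (p, q) = (k, j)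
      · rw [if_pos e1] at hz
        have e2 : (p', q') ≠ (k, j) := fun e => hne (e1.trans e.symm)
        rw [if_neg e2] at hz'
        by_cases e3 : (p', q') = (k, l)
        · rw [if_pos e3] at hz'
          rcases hz' with hz' | hz'
          · exact (hP2 hz).2 hz'
          · exact hP12 z hz' hz
        · rw [if_neg e3] at hz'
          exact hz'
      · rw [if_neg e1] at hz
        by_cases e4 : (p, q) = (k, l)
        · rw [if_pos e4] at hz
          have e5 : (p', q') ≠ (k, l) := fun e => hne (e4.trans e.symm)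
          rw [if_neg e5] at hz'
          by_cases e3 : (p', q') = (k, j)
          · rw [if_pos e3] at hz'
            rcases hz with hz | hz
            · exact (hP2 hz').2 hz
            · exact hP12 z hz hz'
          · rw [if_neg e3] at hz'
            exact hz'
        · rw [if_neg e4] at hz
          exact hz
    · intro p q hpq
      by_cases e1 : (p, q) = (k, j)
      · rw [if_pos e1]
        obtain ⟨rfl, rfl⟩ := Prod.mk.inj e1
        exact hrep _ P2 (fun a b hab => Or.inl hab)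
          (pth_rel_mono (fun a b hab => Or.inl hab) hp2)
      · rw [if_neg e1]
        by_cases e4 : (p, q) = (k, l)
        · rw [if_pos e4]
          obtain ⟨rfl, rfl⟩ := Prod.mk.inj e4
          refine hrep' _ _ (fun a b hab => Or.inl hab) ?_
          refine Pth.trans (r := m) ?_ (Set.mem_insert _ _) (pth_single (Or.inr ⟨rfl, rfl⟩))
          exact (pth_rel_mono (fun a b hab => Or.inl hab) hp1).mono (Set.subset_insert _ _)
        · rw [if_neg e4, Set.union_empty]
          exact pth_rel_mono (fun a b hab => Or.inl hab) (hother p q hpq e1 e4)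
  have hY : ∀ z, addArc (RH R A B x m) x c x z → ¬ R x z → z ≠ c → z ∈ Yg R A B x m := by
    intro z hz hnz hzc
    rcases hz with hz | hz
    · rcases hz with hz | hz
      · exact absurd hz hnz
      · exact hz.2
    · exact absurd hz.2 hzc
  by_cases hyc : y = c
  · have hyc' : y' ≠ c := fun e => hyy (hyc.trans e.symm)
    exact hmain l j y' y hkl hij hjl.symm hy0' hy0 (hY y' hxy' hnxy' hyc') hrep' hrep
      (fun p q hpq e1 e2 => hother p q hpq e2 e1)
  · exact hmain j l y y' hij hkl hjl hy0 hy0' (hY y hxy hnxy hyc) hrep hrep' hother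

end Pool.Agent.MK3
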