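import Pool.Agent.MK3.PthL

/-! Replacing an arc by a path. -/

open Classical

namespace Pool.Agent.MK3

open Relation Pool.Agent.ParBFS

variable {V : Type} {R R' : V → V → Prop}

/-- Replace the arc `r → c` by a path outside. PROOF. `TriOn (addArc R r c) W0 f Z`. If `Pth R (Z i j) (f i) (f j)` holds put `Z' i j = Z i j`, otherwise (and `i ≠ j`)
`Z' i j = Z i j ∪ P`, `Z' i i = Z i i` (`pth_lift`: an arc of `addArc R r c` is an arc of `R`, a path with empty interior, or it is `(r, c)`). At most one pair `(i, j)` is of the second kind: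
such a path has (`r = f i ∨ r ∈ Z i j`) and (`c = f j ∨ c ∈ Z i j`), otherwise `pth_rel` removes the arc; two pairs `(i, j) ≠ (k, l)`: `inj`, `off`, `dis` give `i = k`, `r = f i` from the first, `j = l` from the second
(compare `out_same`). -/
theorem tri_replace {W0 W P : Set V} {r c : V} (hT : Tri (addArc R r c) W0) (hW : W0 ⊆ W)
    (hP : Pth R P r c) (hPW : P ⊆ W) (hd : ∀ z ∈ P, z ∉ W0) : Tri R W := by
  obtain ⟨f, Z, h⟩ := hT
  -- a path of the second kind uses the new arc
  have hbad : ∀ i j, i ≠ j → ¬ Pth R (Z i j) (f i) (f j) →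
      (r = f i ∨ r ∈ Z i j) ∧ (c = f j ∨ c ∈ Z i j) := by
    intro i j hij hn
    constructor
    · by_contra hr
      refine hn (pth_rel ?_ (h.path i j hij))
      intro a b ha _ hab
      rcases hab with hab | ⟨hab, _⟩
      · exact hab
      · rw [hab] at ha
        exact absurd ha hr
    · by_contra hc
      refine hn (pth_rel ?_ (h.path i j hij))
      intro a b _ hb hab
      rcases hab with hab | ⟨_, hab⟩
      · exact hab
      · rw [hab] at hb
        exact absurd hb hc
  have huniq : ∀ i j k l, i ≠ j → ¬ Pth R (Z i j) (f i) (f j) → k ≠ l →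
      ¬ Pth R (Z k l) (f k) (f l) → (i, j) = (k, l) := by
    intro i j k l hij h1 hkl h2
    by_contra hne
    obtain ⟨a1, b1⟩ := hbad i j hij h1
    obtain ⟨a2, b2⟩ := hbad k l hkl h2
    have hik : i = k := by
      rcases a1 with a1 | a1
      · rcases a2 with a2 | a2
        · exact h.inj (a1.symm.trans a2)
        · rw [a1] at a2
          exact absurd a2 (h.off k l i)
      · rcases a2 with a2 | a2
        · rw [a2] at a1
          exact absurd a1 (h.off i j k)
        · exact absurd a2 (h.dis i j k l hne r a1)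
    have hjl : j = l := by
      rcases b1 with b1 | b1
      · rcases b2 with b2 | b2
        · exact h.inj (b1.symm.trans b2)
        · rw [b1] at b2
          exact absurd b2 (h.off k l j)
      · rcases b2 with b2 | b2
        · rw [b2] at b1
          exact absurd b1 (h.off i j l)
        · exact absurd b2 (h.dis i j k l hne c b1)
    exact hne (by rw [hik, hjl])
  let Z' : Fin 3 → Fin 3 → Set V := fun i j =>
    {z | z ∈ Z i j ∨ (z ∈ P ∧ i ≠ j ∧ ¬ Pth R (Z i j) (f i) (f j))}
  refine ⟨f, Z', ⟨h.inj, fun i => hW (h.mem i), ?_, ?_, ?_, ?_⟩⟩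
  · intro i j hij
    by_cases hp : Pth R (Z i j) (f i) (f j)
    · exact hp.mono fun z hz => Or.inl hz
    · refine (pth_lift (Z := Z i j) (P := P) ?_ (h.path i j hij)).mono ?_
      · intro a b _ _ hab
        rcases hab with hab | ⟨ha, hb⟩
        · exact pth_single hab
        · rw [ha, hb]
          exact hP
      · intro z hz
        rcases hz with hz | hz
        · exact Or.inl hz
        · exact Or.inr ⟨hz, hij, hp⟩
  · intro i j z hz
    rcases hz with hz | hz
    · exact hW (h.sub i j hz)
    · exact hPW hz.1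
  · intro i j k hz
    rcases hz with hz | hz
    · exact h.off i j k hz
    · exact hd _ hz.1 (h.mem k)
  · intro i j k m hne z hz hz'
    rcases hz with hz | hz
    · rcases hz' with hz' | hz'
      · exact h.dis i j k m hne z hz hz'
      · exact hd z hz'.1 (h.sub i j hz)
    · rcases hz' with hz' | hz'
      · exact hd z hz.1 (h.sub k m hz')
      · exact hne (huniq i j k m hz.2.1 hz.2.2 hz'.2.1 hz'.2.2)

/-- bigger relation, bigger set. -/
theorem tri_mono {W0 W : Set V} (hT : Tri R' W0) (hW : W0 ⊆ W)
    (h : ∀ a ∈ W0, ∀ b ∈ W0, R' a b → R a b) : Tri R W := by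
  obtain ⟨f, Z, hT⟩ := hT
  refine ⟨f, Z, ⟨hT.inj, fun i => hW (hT.mem i), ?_, fun i j z hz => hW (hT.sub i j hz),
    hT.off, hT.dis⟩⟩
  intro i j hij
  refine pth_rel ?_ (hT.path i j hij)
  intro a b ha hb hab
  refine h a ?_ b ?_ hab
  · rcases ha with ha | ha
    · rw [ha]
      exact hT.mem i
    · exact hT.sub i j ha
  · rcases hb with hb | hb
    · rw [hb]
      exact hT.mem j
    · exact hT.sub i j hb

end Pool.Agent.MK3
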