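import Pool.Agent.MK3.OutIn
import Pool.Agent.MK3.Rep

/-! Case 2: lifting. -/

open Classical

namespace Pool.Agent.MK3

open Relation Pool.Agent.ParBFS

variable {V : Type} {R : V → V → Prop}

private theorem liftTwo_mono {R S : V → V → Prop} (h : ∀ a b, R a b → S a b) {Z : Set V} {x y : V}
    (hp : Pth R Z x y) : Pth S Z x y :=
  pth_rel (fun a b _ _ hab => h a b hab) hp

private theorem liftTwo_rch {R S : V → V → Prop} {Z Z' : Set V} (hZ : Z ⊆ Z')
    (h : ∀ a b, a ∈ Z → R a b → S a b) {x y : V} (hp : Rch R Z x y) : Rch S Z' x y := by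
  unfold Rch at hp ⊢
  exact ReflTransGen.mono (fun a b hab => ⟨hZ hab.1, hZ hab.2.1, h a b hab.1 hab.2.2⟩) _ _ hp

/-- One dependent pair `(i, j)` with `x = f j`: the vertex `m` lies on the route
`f j → f i → u`. -/
private theorem liftTwo_route {W A B W0 U : Set V} {x m c : V} (h : Sep R W A B x m)
    (hUB : U ⊆ B) (h2 : ∀ u ∈ U, u ∉ Ug R B x m) (hW0 : W0 ⊆ insert x B)
    {f : Fin 3 → V} {Z : Fin 3 → Fin 3 → Set V}
    (hT : TriOn (addArc (RU R U x) m c) W0 f Z) {i j : Fin 3} (hij : i ≠ j) (hx : x = f j)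
    {u : V} (hu : u ∈ U)
    (hr : u = f i ∨ (u ∈ Z i j ∧ Pth (addArc R m c) (Z i j) (f i) u)) :
    m ∈ Z j i ∨ m = f i ∨ m ∈ Z i j := by
  by_contra hcon
  push Not at hcon
  obtain ⟨hm1, hm2, hm3⟩ := hcon
  have hmx : m ≠ x := fun he => h.hxB (he ▸ h.hm)
  have hfij : f i ≠ f j := fun he => hij (hT.inj he)
  -- the set
  obtain ⟨E, hE⟩ : ∃ E : Set V, E = {x} ∪ Z j i ∪ {f i} ∪ Z i j := ⟨_, rfl⟩
  have hmE : m ∉ E := by
    rw [hE]
    rintro (((he | he) | he) | he)
    · exact hmx he
    · exact hm1 he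
    · exact hm2 he
    · exact hm3 he
  have hEW : E ⊆ insert x B \ {m} := by
    intro z hz
    have hz' : z ∈ insert x B := by
      rw [hE] at hz
      rcases hz with ((he | he) | he) | he
      · rw [Set.mem_singleton_iff.1 he]
        exact Set.mem_insert _ _
      · exact hW0 (hT.sub j i he)
      · rw [Set.mem_singleton_iff.1 he]
        exact hW0 (hT.mem i)
      · exact hW0 (hT.sub i j he)
    exact ⟨hz', fun he => hmE (Set.mem_singleton_iff.1 he ▸ hz)⟩
  have huE : u ∈ E := by
    rw [hE]
    rcases hr with hr | hr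
    · exact Or.inl (Or.inr hr)
    · exact Or.inr hr.1
  -- the path from `x` to `f i`
  have hp1 : Pth (addArc R m c) (Z j i) x (f i) := by
    have hp := hT.path j i (Ne.symm hij)
    rw [← hx] at hp
    refine pth_rel ?_ hp
    intro a b ha hb hab
    have hbx : b ≠ x := by
      intro he
      rcases hb with hb | hb
      · exact hfij (hb.symm.trans (he.trans hx))
      · rw [he, hx] at hb
        exact hT.off j i j hb
    rcases hab with (hab | hab) | hab
    · exact Or.inl hab
    · exact absurd hab.1 hbx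
    · exact Or.inr hab
  have harc : ∀ a b, a ∈ E → addArc R m c a b → R a b := by
    intro a b ha hab
    rcases hab with hab | hab
    · exact hab
    · exact absurd (hab.1 ▸ ha) hmE
  have hr1 : Rch (addArc R m c) E x (f i) := by
    refine liftTwo_rch ?_ (fun a b _ hab => hab) (rch_of_pth hp1)
    rintro z (hz | hz)
    · rw [hE]
      exact Or.inl (Or.inl (Or.inr hz))
    · rw [hE]
      rcases hz with hz | hz
      · exact Or.inl (Or.inl (Or.inl hz))
      · exact Or.inl (Or.inr hz)
  have hr2 : Rch (addArc R m c) E (f i) u := by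
    rcases hr with hr | hr
    · rw [hr]
      exact ReflTransGen.refl
    · refine liftTwo_rch ?_ (fun a b _ hab => hab) (rch_of_pth hr.2)
      rintro z (hz | hz)
      · rw [hE]
        exact Or.inr hz
      · rcases hz with hz | hz
        · rw [hE]
          exact Or.inl (Or.inr hz)
        · rw [Set.mem_singleton_iff.1 hz]
          exact huE
  have hr3 : Rch R (insert x B \ {m}) x u :=
    liftTwo_rch hEW harc (ReflTransGen.trans hr1 hr2)
  exact h2 u hu ⟨hUB hu, fun he => hmE (he ▸ huE), hr3⟩

/-- PROOF. Put `R' = addArc (RU R U x) m c`, `S = addArc R m c`; arcs of `R'` which are not in `S` are arcs `u → x`, `u ∈ U`. `in_dep` with `S` in the place of `R`. Let `(i, j)` be dependent if `i ≠ j` and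
`¬ Pth S (Z i j) (f i) (f j)`. CLAIM: at most one pair is dependent. Let `(i, j) ≠ (k, l)` be dependent. `x = f j ∨ x ∈ Z i j` and `x = f l ∨ x ∈ Z k l`; by `off`, `dis`, `inj`: `x = f j = f l`, `j = l`, `i ≠ k`. `in_dep` gives `u ∈ U` with
`u = f i ∨ (u ∈ Z i j ∧ Pth S (Z i j) (f i) u)`. The path from `x = f j` to `f i` in `Z j i` is an `S`-path (its heads are `≠ x`, `pth_rel`). So `x` reaches `u` inside `E i = {x} ∪ Z j i ∪ {f i} ∪ Z i j` by `S` (`rch_of_pth`). If `m ∉ E i` these
arcs are arcs of `R` (the tail of the additional arc is `m`), `E i ⊆ insert x B \ {m}`, so `u ∈ Ug`, a contradiction to `h2`. So `m ∈ E i`, in the same way `m ∈ E k`; `m ≠ x`; but `E i ∩ E k = {x}` by `inj`, `off`, `dis`. Contradiction.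
If no pair is dependent: `Tri S W` by the same sets. If `(i, j)` is: `Z' i j = Z i j ∪ A` (`pth_lift`: a new arc `(u, x)` is replaced by `h1 u`), all other sets as before; `A` is disjoint from `insert x B`. -/
theorem lift_two {W A B W0 U : Set V} {x m c : V} (h : Sep R W A B x m) (hUB : U ⊆ B)
    (h1 : ∀ u ∈ U, Pth R A u x) (h2 : ∀ u ∈ U, u ∉ Ug R B x m) (hW0 : W0 ⊆ insert x B)
    (hT : Tri (addArc (RU R U x) m c) W0) : Tri (addArc R m c) W := by
  obtain ⟨f, Z, hT⟩ := hT
  have hmx : m ≠ x := fun he => h.hxB (he ▸ h.hm)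
  have hBW : insert x B ⊆ W := by
    rw [h.hW]
    exact Set.insert_subset_insert Set.subset_union_right
  have hW0W : W0 ⊆ W := hW0.trans hBW
  have hAW : A ⊆ W := by
    rw [h.hW]
    exact Set.subset_union_left.trans (Set.subset_insert _ _)
  have hAW0 : ∀ z ∈ A, z ∉ W0 := by
    intro z hz hz0
    rcases hW0 hz0 with he | he
    · exact h.hxA (he ▸ hz)
    · exact h.hAB z hz he
  have hR : ∀ a ∈ W0, ∀ b ∈ W0, b ≠ x → addArc (RU R U x) m c a b → addArc R m c a b := by
    intro a _ b _ hbx hab
    rcases hab with (hab | hab) | hab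
    · exact Or.inl hab
    · exact absurd hab.1 hbx
    · exact Or.inr hab
  have hU : ∀ u, addArc (RU R U x) m c u x → ¬ addArc R m c u x → u ∈ U := by
    intro u hu hn
    rcases hu with (hu | hu) | hu
    · exact absurd (Or.inl hu) hn
    · exact hu.2
    · exact absurd (Or.inr hu) hn
  -- at most one dependent pair
  have huniq : ∀ i j k l : Fin 3, i ≠ j → k ≠ l → ¬ Pth (addArc R m c) (Z i j) (f i) (f j) →
      ¬ Pth (addArc R m c) (Z k l) (f k) (f l) → (i, j) = (k, l) := by
    intro i j k l hij hkl hd hd'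
    by_contra hne
    obtain ⟨hx1, hu1⟩ := in_dep hT hR hij hd
    obtain ⟨hx2, hu2⟩ := in_dep hT hR hkl hd'
    rcases hx1 with hx1 | hx1
    · rcases hx2 with hx2 | hx2
      · have hjl : j = l := hT.inj (hx1.symm.trans hx2)
        subst hjl
        have hik : i ≠ k := fun he => hne (by rw [he])
        obtain ⟨u, hu, hu', hu''⟩ := hu1 hx1
        obtain ⟨v, hv, hv', hv''⟩ := hu2 hx1
        have hm1 := liftTwo_route h hUB h2 hW0 hT hij hx1 (hU u hu' hu'') hu
        have hm2 := liftTwo_route h hUB h2 hW0 hT hkl hx1 (hU v hv' hv'') hv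
        rcases hm1 with hm1 | hm1 | hm1
        · rcases hm2 with hm2 | hm2 | hm2
          · exact hT.dis j i j k (fun he => hik (Prod.ext_iff.1 he).2) m hm1 hm2
          · exact hT.off j i k (hm2 ▸ hm1)
          · exact hT.dis j i k j (fun he => hkl (Prod.ext_iff.1 he).1.symm) m hm1 hm2
        · rcases hm2 with hm2 | hm2 | hm2
          · exact hT.off j k i (hm1 ▸ hm2)
          · exact hik (hT.inj (hm1.symm.trans hm2))
          · exact hT.off k j i (hm1 ▸ hm2)
        · rcases hm2 with hm2 | hm2 | hm2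
          · exact hT.dis i j j k (fun he => hij (Prod.ext_iff.1 he).1) m hm1 hm2
          · exact hT.off i j k (hm2 ▸ hm1)
          · exact hT.dis i j k j (fun he => hik (Prod.ext_iff.1 he).1) m hm1 hm2
      · exact hT.off k l j (hx1 ▸ hx2)
    · rcases hx2 with hx2 | hx2
      · exact hT.off i j l (hx2 ▸ hx1)
      · exact hT.dis i j k l hne x hx1 hx2
  by_cases hex : ∃ i j : Fin 3, i ≠ j ∧ ¬ Pth (addArc R m c) (Z i j) (f i) (f j)
  · obtain ⟨i0, j0, hij0, hd0⟩ := hex
    obtain ⟨Z', hZ'⟩ : ∃ Z' : Fin 3 → Fin 3 → Set V,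
        ∀ i j, Z' i j = if (i, j) = (i0, j0) then Z i0 j0 ∪ A else Z i j := ⟨_, fun _ _ => rfl⟩
    have hZ0 : Z' i0 j0 = Z i0 j0 ∪ A := by rw [hZ', if_pos rfl]
    have hZ1 : ∀ i j, (i, j) ≠ (i0, j0) → Z' i j = Z i j := fun i j hn => by
      rw [hZ', if_neg hn]
    have hsplit : ∀ i j, ((i, j) = (i0, j0) ∧ Z' i j = Z i j ∪ A) ∨ Z' i j = Z i j := by
      intro i j
      by_cases hn : (i, j) = (i0, j0)
      · left
        obtain ⟨rfl, rfl⟩ := Prod.mk.inj hn
        exact ⟨rfl, hZ0⟩
      · exact Or.inr (hZ1 i j hn)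
    refine ⟨f, Z', hT.inj, fun i => hW0W (hT.mem i), ?_, ?_, ?_, ?_⟩
    · intro i j hij
      by_cases hn : (i, j) = (i0, j0)
      · obtain ⟨rfl, rfl⟩ := Prod.mk.inj hn
        rw [hZ0]
        refine pth_lift ?_ (hT.path _ _ hij)
        intro a b _ _ hab
        by_cases hS : addArc R m c a b
        · exact pth_single hS
        · rcases hab with (hab | hab) | hab
          · exact absurd (Or.inl hab) hS
          · rw [hab.1]
            exact liftTwo_mono (fun a b h => Or.inl h) (h1 a hab.2)
          · exact absurd (Or.inr hab) hS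
      · rw [hZ1 i j hn]
        by_contra hd
        exact hn (huniq i j i0 j0 hij hij0 hd hd0)
    · intro i j
      rcases hsplit i j with hs | hs
      · rw [hs.2]
        exact Set.union_subset ((hT.sub i j).trans hW0W) hAW
      · rw [hs]
        exact (hT.sub i j).trans hW0W
    · intro i j k
      rcases hsplit i j with hs | hs
      · rw [hs.2]
        rintro (hz | hz)
        · exact hT.off i j k hz
        · exact hAW0 _ hz (hT.mem k)
      · rw [hs]
        exact hT.off i j k
    · intro i j k l hne z hz hz'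
      rcases hsplit i j with hs | hs
      · have hkl : Z' k l = Z k l := by
          refine hZ1 k l fun he => hne ?_
          rw [hs.1, he]
        rw [hkl] at hz'
        rw [hs.2] at hz
        rcases hz with hz | hz
        · exact hT.dis i j k l hne z hz hz'
        · exact hAW0 z hz (hT.sub k l hz')
      · rw [hs] at hz
        rcases hsplit k l with hs' | hs'
        · rw [hs'.2] at hz'
          rcases hz' with hz' | hz'
          · exact hT.dis i j k l hne z hz hz'
          · exact hAW0 z hz' (hT.sub i j hz)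
        · rw [hs'] at hz'
          exact hT.dis i j k l hne z hz hz'
  · push Not at hex
    exact ⟨f, Z, hT.inj, fun i => hW0W (hT.mem i), fun i j hij => hex i j hij,
      fun i j => (hT.sub i j).trans hW0W, hT.off, hT.dis⟩

end Pool.Agent.MK3
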