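import Pool.Agent.MK3.TwoNew
import Pool.Agent.MK3.LiftTwo

/-! Case 2. -/

open Classical

namespace Pool.Agent.MK3

open Relation Pool.Agent.ParBFS

variable {V : Type} {R : V → V → Prop}

/-- Case 2. PROOF. `two_new` gives `U`. `exists_strong` gives `W0 ⊆ insert x B`, not 2-colourable for `RU R U x`, strong. `x ∈ W0`: otherwise `W0 ⊆ B`, there `RU` is `R`, but `R` is 2-colourable on
`W \ {x}`. `m ∈ W0`: otherwise every `u ∈ U ∩ W0` is reached from `x` inside `W0` by a duplicate free path (`pth_of_rch`, `u ≠ x`), which has no arc into `x`, so it is an `R`-path in `insert x B \ {m}` and `u ∈ Ug`, a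
contradiction. So no vertex of `W0` is in `U`, `RU` is `R` on `W0`, and `W0 ⊆ W \ {a}` for `a ∈ A`, which is 2-colourable. `W0.ncard < W.ncard` (`a ∈ A` is missing). `ih` for `RU R U x` (no loops: `x ∉ U`) and `m`: `c ∈ W0`, `c ≠ m`,
`lift_two`. -/
theorem case_two [Finite V] (hR : ∀ v, ¬ R v v) {W A B : Set V} {x m : V} (h : Sep R W A B x m)
    (hW : ¬ Colable R W 2) (hc : ∀ v ∈ W, Colable R (W \ {v}) 2) (ih : Hyp V W.ncard)
    (h1 : Colable (RH R A B x m) (insert x A) 2) : Goal R W m := by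
  obtain ⟨U, hUB, hUp, hUg, hU⟩ := two_new hR h hW h1
  obtain ⟨W0, hW0, hW0c, -, hstr⟩ := exists_strong hU
  have hxW : x ∈ W := by
    rw [h.hW]
    exact Set.mem_insert _ _
  have hBW : insert x B ⊆ W := by
    rw [h.hW]
    exact Set.insert_subset_insert Set.subset_union_right
  have hW0W : W0 ⊆ W := hW0.trans hBW
  have hxU : x ∉ U := fun hx => h.hxB (hUB hx)
  obtain ⟨a, ha⟩ := h.hA
  have haW : a ∈ W := by
    rw [h.hW]
    exact Set.mem_insert_of_mem _ (Or.inl ha)
  have haW0 : a ∉ W0 := by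
    intro h'
    rcases hW0 h' with h2 | h2
    · exact h.hxA (h2 ▸ ha)
    · exact h.hAB a ha h2
  have key : ∀ v ∈ W, v ∉ W0 → (∀ p ∈ W0, ∀ q ∈ W0, RU R U x p q → R p q) → False := by
    intro v hv hvW0 hrel
    obtain ⟨c, hc1, hc2⟩ := hc v hv
    have hsub : W0 ⊆ W \ {v} := fun z hz => ⟨hW0W hz, fun e => hvW0 (by
      rw [Set.mem_singleton_iff] at e
      rw [← e]
      exact hz)⟩
    apply hW0c
    refine ⟨c, fun z hz => hc1 z (hsub hz), fun z hz => hc2 z (tmono ?_ hz)⟩
    rintro p q ⟨hp, hq, hpq, hcpq⟩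
    exact ⟨hsub hp, hsub hq, hrel p hp q hq hpq, hcpq⟩
  have hxW0 : x ∈ W0 := by
    by_contra hx
    refine key x hxW hx ?_
    rintro p hp q hq (hpq | ⟨hqx, -⟩)
    · exact hpq
    · exact absurd (hqx ▸ hq) hx
  have hmW0 : m ∈ W0 := by
    by_contra hm
    refine key a haW haW0 ?_
    rintro p hp q hq (hpq | ⟨-, hpU⟩)
    · exact hpq
    · exfalso
      have hpx : x ≠ p := fun e => hxU (e ▸ hpU)
      have hr : Rch (RU R U x) W0 x p := hstr x hxW0 p hp
      have hp2 := pth_of_rch hpx hr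
      have hp3 : Pth R (W0 \ {x, p}) x p := by
        refine pth_rel ?_ hp2
        rintro s t - ht (hst | ⟨htx, -⟩)
        · exact hst
        · exfalso
          rcases ht with ht | ht
          · exact hpx (htx.symm.trans ht)
          · exact ht.2 (Or.inl htx)
      have hp4 := rch_of_pth hp3
      have hsub : ∀ z ∈ W0 \ {x, p} ∪ {x, p}, z ∈ insert x B \ {m} := by
        intro z hz
        have hzW0 : z ∈ W0 := by
          rcases hz with hz | hz | hz
          · exact hz.1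
          · exact hz ▸ hxW0
          · rw [Set.mem_singleton_iff] at hz
            exact hz ▸ hp
        refine ⟨hW0 hzW0, fun e => hm ?_⟩
        rw [Set.mem_singleton_iff] at e
        exact e ▸ hzW0
      refine hUg p hpU ⟨hUB hpU, fun e => hm (e ▸ hp), ?_⟩
      unfold Rch at hp4 ⊢
      refine ReflTransGen.mono ?_ _ _ hp4
      intro s t hst
      exact ⟨hsub s hst.1, hsub t hst.2.1, hst.2.2⟩
  have hcard : W0.ncard < W.ncard := by
    refine Set.ncard_lt_ncard ⟨hW0W, fun hsub => haW0 (hsub haW)⟩ (Set.toFinite W)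
  have hloop : ∀ v, ¬ RU R U x v v := by
    rintro v (hv | ⟨hvx, hvU⟩)
    · exact hR v hv
    · exact hxU (hvx ▸ hvU)
  obtain ⟨c, hcW0, hcm, hT⟩ := ih (RU R U x) hloop W0 hcard hW0c hstr m hmW0
  exact ⟨c, hW0W hcW0, hcm, lift_two h hUB hUp hUg hW0 hT⟩

end Pool.Agent.MK3
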