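import Pool.Agent.MK3.Defs

/-! Descent, case (ii). -/

open Classical

namespace Pool.Agent.MK3

open Relation Pool.Agent.ParBFS

variable {V : Type} {R : V → V → Prop}

/-- splitting a path at an interior vertex -/
private theorem cfgTwo_split {x y v : V} {a c : List V} :
    LP R x (a ++ v :: c) y ↔ LP R x a v ∧ LP R v c y := by
  unfold LP
  have h : x :: (a ++ v :: c ++ [y]) = (x :: a) ++ v :: (c ++ [y]) := by simp
  rw [h, List.isChain_split]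
  simp

private theorem cfgTwo_start {z q1 b : V} {s1 s2 : List V}
    (h1 : (s1 ++ z :: s2 ++ [q1]).IsChain R)
    (h2 : (s1 ++ z :: s2 ++ [q1]).head? = some b) :
    (s1 ++ [z]).IsChain R ∧ (s1 ++ [z]).head? = some b ∧ LP R z s2 q1 := by
  have h : s1 ++ z :: s2 ++ [q1] = s1 ++ z :: (s2 ++ [q1]) := by simp
  rw [h] at h1 h2
  rw [List.isChain_split] at h1
  refine ⟨h1.1, ?_, h1.2⟩
  cases s1 with
  | nil => simpa using h2
  | cons c s => simpa using h2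

private theorem cfgTwo_beq {x a : V} (h : a ≠ x) : (if (x == a) = true then 1 else 0) = 0 := by
  rw [if_neg]
  intro h1
  exact h (beq_iff_eq.1 h1).symm

/-- the counts of the vertex `a` in all the pieces -/
private theorem cfgTwo_cnt {m q1 q2 z w t : V} {s1 s2 X T1 T2 T3 T4 P1 P2 G1 G2 : List V}
    (h7 : (m :: q1 :: q2 :: (s1 ++ z :: s2 ++ (X ++ ((T1 ++ w :: T2) ++ (P1 ++ P2))))).Nodup)
    (ht : w :: T2 = T3 ++ t :: T4) (hGn : (G1 ++ G2).Nodup)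
    (hG1 : ∀ u ∈ G1, u ≠ m ∧ u ≠ q1 ∧ u ≠ q2 ∧ u ∉ s1 ∧ u ≠ z ∧ u ∉ s2 ∧ u ∉ X ∧ u ∉ T1 ∧ u ≠ w ∧
      u ∉ T2 ∧ u ∉ P1 ∧ u ∉ P2)
    (hG2 : ∀ u ∈ G2, u ≠ m ∧ u ≠ q1 ∧ u ≠ q2 ∧ u ∉ s1 ∧ u ≠ z ∧ u ∉ s2 ∧ u ∉ X ∧ u ≠ w ∧
      u ∉ T2 ∧ u ∉ P1 ∧ u ∉ P2) (a : V) :
    ((if (m == a) = true then 1 else 0) + (if (q1 == a) = true then 1 else 0) +
      (if (q2 == a) = true then 1 else 0) + s1.count a + (if (z == a) = true then 1 else 0) +
      s2.count a + X.count a + T1.count a + (if (w == a) = true then 1 else 0) + T2.count a +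
      P1.count a + P2.count a ≤ 1) ∧ G1.count a + G2.count a ≤ 1 ∧
    (G1.count a = 0 ∨ ((if (m == a) = true then 1 else 0) = 0 ∧
      (if (q1 == a) = true then 1 else 0) = 0 ∧ (if (q2 == a) = true then 1 else 0) = 0 ∧
      s1.count a = 0 ∧ (if (z == a) = true then 1 else 0) = 0 ∧ s2.count a = 0 ∧
      X.count a = 0 ∧ (if (w == a) = true then 1 else 0) = 0 ∧ T2.count a = 0 ∧
      P1.count a = 0 ∧ P2.count a = 0)) ∧
    (G2.count a = 0 ∨ ((if (m == a) = true then 1 else 0) = 0 ∧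
      (if (q1 == a) = true then 1 else 0) = 0 ∧ (if (q2 == a) = true then 1 else 0) = 0 ∧
      s1.count a = 0 ∧ (if (z == a) = true then 1 else 0) = 0 ∧ s2.count a = 0 ∧
      X.count a = 0 ∧ (if (w == a) = true then 1 else 0) = 0 ∧ T2.count a = 0 ∧
      P1.count a = 0 ∧ P2.count a = 0)) ∧
    T2.count a + (if (w == a) = true then 1 else 0) =
      T3.count a + (T4.count a + (if (t == a) = true then 1 else 0)) := by
  refine ⟨?_, ?_, ?_, ?_, ?_⟩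
  · have h := List.nodup_iff_count_le_one.1 h7 a
    simp only [List.count_cons, List.count_append] at h
    omega
  · have h := List.nodup_iff_count_le_one.1 hGn a
    rwa [List.count_append] at h
  · by_cases h : a ∈ G1
    · obtain ⟨u1, u2, u3, u4, u5, u6, u7, -, u9, u10, u11, u12⟩ := hG1 a h
      exact Or.inr ⟨cfgTwo_beq u1, cfgTwo_beq u2, cfgTwo_beq u3, List.count_eq_zero.2 u4,
        cfgTwo_beq u5, List.count_eq_zero.2 u6, List.count_eq_zero.2 u7, cfgTwo_beq u9,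
        List.count_eq_zero.2 u10, List.count_eq_zero.2 u11, List.count_eq_zero.2 u12⟩
    · exact Or.inl (List.count_eq_zero.2 h)
  · by_cases h : a ∈ G2
    · obtain ⟨u1, u2, u3, u4, u5, u6, u7, u9, u10, u11, u12⟩ := hG2 a h
      exact Or.inr ⟨cfgTwo_beq u1, cfgTwo_beq u2, cfgTwo_beq u3, List.count_eq_zero.2 u4,
        cfgTwo_beq u5, List.count_eq_zero.2 u6, List.count_eq_zero.2 u7, cfgTwo_beq u9,
        List.count_eq_zero.2 u10, List.count_eq_zero.2 u11, List.count_eq_zero.2 u12⟩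
    · exact Or.inl (List.count_eq_zero.2 h)
  · have h := congrArg (List.count a) ht
    rwa [List.count_cons, List.count_append, List.count_cons] at h

/-- Case (ii): `z, G1, w` with `z` in `L`, `w` in `T`, and `t, G2, v` with `t` in `w :: T2`,
where `T = T1 ++ w :: T2`, `w :: T2 = T3 ++ t :: T4`, and `v` in `P1`, `P2`, `X`, `v = q2` or
`v = m`; `G2` may meet `T1`. PROOF. new `L` is `s1`, `q1' = z`, `X' = G1 ++ T3`, `q2' = t`,
`T' = T4`. `v = m`: `s2 ++ q1 :: P1`, `G2`. `v ∈ P1 = a ++ v :: c`: `s2 ++ q1 :: (X ++ q2 :: P2)`,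
`G2 ++ v :: c`. `v ∈ P2 = a ++ v :: c`: `s2 ++ q1 :: P1`, `G2 ++ v :: c`. `v = q2`:
`s2 ++ q1 :: P1`, `G2 ++ q2 :: P2`. `v ∈ X = a ++ v :: c`: `s2 ++ q1 :: P1`,
`G2 ++ v :: (c ++ q2 :: P2)`. -/
theorem cfg_two {m b q1 q2 z v w t : V} {s1 s2 X T1 T2 T3 T4 P1 P2 G1 G2 : List V}
    (h1 : (s1 ++ z :: s2 ++ [q1]).IsChain R) (h2 : (s1 ++ z :: s2 ++ [q1]).head? = some b)
    (h3 : LP R q1 X q2) (h4 : LP R q2 (T1 ++ w :: T2) b) (h5 : LP R q1 P1 m) (h6 : LP R q2 P2 m)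
    (h7 : (m :: q1 :: q2 :: (s1 ++ z :: s2 ++ (X ++ ((T1 ++ w :: T2) ++ (P1 ++ P2))))).Nodup)
    (ht : w :: T2 = T3 ++ t :: T4)
    (hG : LP R z G1 w) (hH : LP R t G2 v) (hGn : (G1 ++ G2).Nodup)
    (hG1 : ∀ u ∈ G1, u ≠ m ∧ u ≠ q1 ∧ u ≠ q2 ∧ u ∉ s1 ∧ u ≠ z ∧ u ∉ s2 ∧ u ∉ X ∧ u ∉ T1 ∧ u ≠ w ∧
      u ∉ T2 ∧ u ∉ P1 ∧ u ∉ P2)
    (hG2 : ∀ u ∈ G2, u ≠ m ∧ u ≠ q1 ∧ u ≠ q2 ∧ u ∉ s1 ∧ u ≠ z ∧ u ∉ s2 ∧ u ∉ X ∧ u ≠ w ∧
      u ∉ T2 ∧ u ∉ P1 ∧ u ∉ P2)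
    (hv : v = m ∨ v = q2 ∨ v ∈ X ∨ v ∈ P1 ∨ v ∈ P2) : Cfg R m b s1 := by
  obtain ⟨k1, k2, k3⟩ := cfgTwo_start h1 h2
  have hcnt := cfgTwo_cnt h7 ht hGn hG1 hG2
  -- the path from `w` to `b`
  have h4' : LP R w T2 b := (cfgTwo_split.1 h4).2
  have hX : LP R z (G1 ++ T3) t ∧ LP R t T4 b := by
    cases T3 with
    | nil =>
      rw [List.nil_append] at ht
      obtain ⟨rfl, rfl⟩ := List.cons.inj ht
      rw [List.append_nil]
      exact ⟨hG, h4'⟩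
    | cons c T3 =>
      rw [List.cons_append] at ht
      obtain ⟨rfl, rfl⟩ := List.cons.inj ht
      have h8 := cfgTwo_split.1 h4'
      exact ⟨cfgTwo_split.2 ⟨hG, h8.1⟩, h8.2⟩
  have hP1 : LP R z (s2 ++ q1 :: P1) m := cfgTwo_split.2 ⟨k3, h5⟩
  rcases hv with rfl | rfl | hv | hv | hv
  · refine ⟨z, t, G1 ++ T3, T4, s2 ++ q1 :: P1, G2, k1, k2, hX.1, hX.2, hP1, hH, ?_⟩
    rw [List.nodup_iff_count_le_one]
    intro a
    obtain ⟨c1, c2, c3, c4, c5⟩ := hcnt a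
    simp only [List.count_cons, List.count_append]
    omega
  · refine ⟨z, t, G1 ++ T3, T4, s2 ++ q1 :: P1, G2 ++ v :: P2, k1, k2, hX.1, hX.2, hP1,
      cfgTwo_split.2 ⟨hH, h6⟩, ?_⟩
    rw [List.nodup_iff_count_le_one]
    intro a
    obtain ⟨c1, c2, c3, c4, c5⟩ := hcnt a
    simp only [List.count_cons, List.count_append]
    omega
  · obtain ⟨d, c, rfl⟩ := List.append_of_mem hv
    have h8 := (cfgTwo_split.1 h3).2
    refine ⟨z, t, G1 ++ T3, T4, s2 ++ q1 :: P1, G2 ++ v :: (c ++ q2 :: P2), k1, k2, hX.1, hX.2,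
      hP1, cfgTwo_split.2 ⟨hH, cfgTwo_split.2 ⟨h8, h6⟩⟩, ?_⟩
    rw [List.nodup_iff_count_le_one]
    intro a
    obtain ⟨c1, c2, c3, c4, c5⟩ := hcnt a
    simp only [List.count_cons, List.count_append] at c1 c3 c4 ⊢
    omega
  · obtain ⟨d, c, rfl⟩ := List.append_of_mem hv
    have h8 := (cfgTwo_split.1 h5).2
    refine ⟨z, t, G1 ++ T3, T4, s2 ++ q1 :: (X ++ q2 :: P2), G2 ++ v :: c, k1, k2, hX.1, hX.2,
      cfgTwo_split.2 ⟨k3, cfgTwo_split.2 ⟨h3, h6⟩⟩, cfgTwo_split.2 ⟨hH, h8⟩, ?_⟩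
    rw [List.nodup_iff_count_le_one]
    intro a
    obtain ⟨c1, c2, c3, c4, c5⟩ := hcnt a
    simp only [List.count_cons, List.count_append] at c1 c3 c4 ⊢
    omega
  · obtain ⟨d, c, rfl⟩ := List.append_of_mem hv
    have h8 := (cfgTwo_split.1 h6).2
    refine ⟨z, t, G1 ++ T3, T4, s2 ++ q1 :: P1, G2 ++ v :: c, k1, k2, hX.1, hX.2,
      hP1, cfgTwo_split.2 ⟨hH, h8⟩, ?_⟩
    rw [List.nodup_iff_count_le_one]
    intro a
    obtain ⟨c1, c2, c3, c4, c5⟩ := hcnt a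
    simp only [List.count_cons, List.count_append] at c1 c3 c4 ⊢
    omega

end Pool.Agent.MK3
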