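import Pool.Agent.MK3.Defs

/-! Descent, case (i). -/

open Classical

namespace Pool.Agent.MK3

open Relation Pool.Agent.ParBFS

variable {V : Type} {R : V → V → Prop}

private theorem lp_app_CfgOne {x y v : V} {a c : List V} :
    LP R x (a ++ v :: c) y ↔ LP R x a v ∧ LP R v c y := by
  unfold LP
  have e1 : x :: (a ++ v :: c ++ [y]) = (x :: a) ++ v :: (c ++ [y]) := by simp
  have e2 : x :: (a ++ [v]) = (x :: a) ++ [v] := by simp
  rw [e1, e2]
  exact List.isChain_split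

private noncomputable def ct_CfgOne (u a : V) : ℕ := List.count u [a]

private theorem count_cons_CfgOne (u a : V) (l : List V) :
    List.count u (a :: l) = ct_CfgOne u a + List.count u l := by
  unfold ct_CfgOne
  rw [← List.count_append]
  rfl

private theorem count_zero_CfgOne {u a : V} (h : u ≠ a) : ct_CfgOne u a = 0 :=
  List.count_eq_zero_of_not_mem (by simpa using h)

private theorem head_CfgOne {b z q : V} {s1 s2 : List V}
    (h : (s1 ++ z :: s2 ++ [q]).head? = some b) : (s1 ++ [z]).head? = some b := by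
  cases s1 with
  | nil => simpa using h
  | cons y l => simpa using h

/-- Case (i): a path `z, G, v` from a vertex `z` of `L` to a vertex `v` in `P1`, `P2`, `X`, `v = q2` or `v = m`, whose inner
vertices are new. PROOF. `L = s1 ++ z :: s2`; the new `L` is `s1`, the new `q1` is `z`. `v = m`: `X' = s2 ++ q1 :: X`, `q2`, `T`, `G`,
`P2`. `v ∈ P1 = a ++ v :: c`: `X' = s2 ++ q1 :: X`, `q2`, `T`, `G ++ v :: c`, `P2`. `v ∈ P2 = a ++ v :: c`: `X' = s2`, `q2' = q1`,
`T' = X ++ q2 :: T`, `G ++ v :: c`, `P1`. `v = q2`: `X' = G`, `q2`, `T`, `s2 ++ q1 :: P1`, `P2`. `v ∈ X = a ++ v :: c`: `X' = G ++ v :: c`, `q2`, `T`,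
`s2 ++ q1 :: P1`, `P2`. -/
theorem cfg_one {m b q1 q2 z v : V} {s1 s2 X T P1 P2 G : List V}
    (h1 : (s1 ++ z :: s2 ++ [q1]).IsChain R) (h2 : (s1 ++ z :: s2 ++ [q1]).head? = some b)
    (h3 : LP R q1 X q2) (h4 : LP R q2 T b) (h5 : LP R q1 P1 m) (h6 : LP R q2 P2 m)
    (h7 : (m :: q1 :: q2 :: (s1 ++ z :: s2 ++ (X ++ (T ++ (P1 ++ P2))))).Nodup)
    (hG : LP R z G v) (hGn : G.Nodup)
    (hGd : ∀ u ∈ G, u ≠ m ∧ u ≠ q1 ∧ u ≠ q2 ∧ u ∉ s1 ∧ u ≠ z ∧ u ∉ s2 ∧ u ∉ X ∧ u ∉ T ∧ u ∉ P1 ∧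
      u ∉ P2)
    (hv : v = m ∨ v = q2 ∨ v ∈ X ∨ v ∈ P1 ∨ v ∈ P2) : Cfg R m b s1 := by
  have hbig : ∀ u, List.count u G + (ct_CfgOne u m + (ct_CfgOne u q1 +
      (ct_CfgOne u q2 + (List.count u s1 + (ct_CfgOne u z + (List.count u s2 +
      (List.count u X + (List.count u T + (List.count u P1 + List.count u P2))))))))) ≤ 1 := by
    intro u
    by_cases hu : u ∈ G
    · obtain ⟨d1, d2, d3, d4, d5, d6, d7, d8, d9, d10⟩ := hGd u hu
      rw [count_zero_CfgOne d1, count_zero_CfgOne d2, count_zero_CfgOne d3,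
        List.count_eq_zero_of_not_mem d4, count_zero_CfgOne d5,
        List.count_eq_zero_of_not_mem d6, List.count_eq_zero_of_not_mem d7,
        List.count_eq_zero_of_not_mem d8, List.count_eq_zero_of_not_mem d9,
        List.count_eq_zero_of_not_mem d10]
      exact List.nodup_iff_count_le_one.1 hGn u
    · have h := List.nodup_iff_count_le_one.1 h7 u
      simp only [count_cons_CfgOne, List.count_append] at h
      rw [List.count_eq_zero_of_not_mem hu]
      omega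
  have hch : (s1 ++ [z]).IsChain R ∧ LP R z s2 q1 := by
    have e1 : s1 ++ z :: s2 ++ [q1] = s1 ++ z :: (s2 ++ [q1]) := by simp
    rw [e1] at h1
    exact List.isChain_split.1 h1
  have hhd := head_CfgOne h2
  rcases hv with rfl | rfl | hv | hv | hv
  · refine ⟨z, q2, s2 ++ q1 :: X, T, G, P2, hch.1, hhd, lp_app_CfgOne.2 ⟨hch.2, h3⟩, h4, hG, h6,
      List.nodup_iff_count_le_one.2 fun u => ?_⟩
    have h := hbig u
    simp only [count_cons_CfgOne, List.count_append] at h ⊢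
    omega
  · refine ⟨z, v, G, T, s2 ++ q1 :: P1, P2, hch.1, hhd, hG, h4, lp_app_CfgOne.2 ⟨hch.2, h5⟩, h6,
      List.nodup_iff_count_le_one.2 fun u => ?_⟩
    have h := hbig u
    simp only [count_cons_CfgOne, List.count_append] at h ⊢
    omega
  · obtain ⟨a, c, rfl⟩ := List.append_of_mem hv
    refine ⟨z, q2, G ++ v :: c, T, s2 ++ q1 :: P1, P2, hch.1, hhd,
      lp_app_CfgOne.2 ⟨hG, (lp_app_CfgOne.1 h3).2⟩, h4, lp_app_CfgOne.2 ⟨hch.2, h5⟩, h6,
      List.nodup_iff_count_le_one.2 fun u => ?_⟩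
    have h := hbig u
    simp only [count_cons_CfgOne, List.count_append] at h ⊢
    omega
  · obtain ⟨a, c, rfl⟩ := List.append_of_mem hv
    refine ⟨z, q2, s2 ++ q1 :: X, T, G ++ v :: c, P2, hch.1, hhd,
      lp_app_CfgOne.2 ⟨hch.2, h3⟩, h4, lp_app_CfgOne.2 ⟨hG, (lp_app_CfgOne.1 h5).2⟩, h6,
      List.nodup_iff_count_le_one.2 fun u => ?_⟩
    have h := hbig u
    simp only [count_cons_CfgOne, List.count_append] at h ⊢
    omega
  · obtain ⟨a, c, rfl⟩ := List.append_of_mem hv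
    refine ⟨z, q1, s2, X ++ q2 :: T, G ++ v :: c, P1, hch.1, hhd, hch.2,
      lp_app_CfgOne.2 ⟨h3, h4⟩, lp_app_CfgOne.2 ⟨hG, (lp_app_CfgOne.1 h6).2⟩, h5,
      List.nodup_iff_count_le_one.2 fun u => ?_⟩
    have h := hbig u
    simp only [count_cons_CfgOne, List.count_append] at h ⊢
    omega

end Pool.Agent.MK3
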