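import Pool.Agent.MK3.PthL

/-! Step (b). -/

open Classical

namespace Pool.Agent.MK3

open Relation Pool.Agent.ParBFS

variable {V : Type} {R : V → V → Prop}

/-- A colouring of `W \ {b}` has a petal of every colour if `W` is not colourable. -/
private lemma critB_petal {W : Set V} {b : V} (hR : ∀ v, ¬ R v v) (hW : ¬ Colable R W 2)
    {g : V → ℕ} {k : ℕ} (hk : k < 2) (hc1 : ∀ v ∈ W \ {b}, g v < 2)
    (hc2 : ∀ v, ¬ TransGen (fun x y => x ∈ W \ {b} ∧ y ∈ W \ {b} ∧ R x y ∧ g x = g y) v v) :
    Pth R {z | z ∈ W \ {b} ∧ g z = k} b b := by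
  by_contra hno
  apply hW
  have hbA : b ∉ {z | z ∈ W \ {b} ∧ g z = k} := fun h => h.1.2 rfl
  have hAac : ∀ v, ¬ TransGen (fun x y => x ∈ {z | z ∈ W \ {b} ∧ g z = k} ∧
      y ∈ {z | z ∈ W \ {b} ∧ g z = k} ∧ R x y) v v := by
    intro v hv
    refine hc2 v (tmono ?_ hv)
    rintro x y ⟨hx, hy, hxy⟩
    exact ⟨hx.1, hy.1, hxy, by rw [hx.2, hy.2]⟩
  have hac : ∀ v, ¬ TransGen (fun x y => x ∈ insert b {z | z ∈ W \ {b} ∧ g z = k} ∧
      y ∈ insert b {z | z ∈ W \ {b} ∧ g z = k} ∧ R x y) v v := by
    intro v hv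
    exact hno (exists_petal hbA hR hAac ⟨v, hv⟩)
  refine ⟨fun z => if z = b then k else g z, ?_, ?_⟩
  · intro v hv
    by_cases h : v = b
    · simp only [h, if_true]; omega
    · simp only [h, if_false]; exact hc1 v ⟨hv, h⟩
  · intro v hv
    -- the colour is constant along the cycle
    by_cases hcv : (if v = b then k else g v) = k
    · refine hac v (transGen_restrict (P := fun x => (if x = b then k else g x) = k) ?_ hcv hv).2
      rintro x y hx ⟨hxW, hyW, hxy, he⟩
      change (if x = b then k else g x) = (if y = b then k else g y) at he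
      rw [hx] at he
      refine ⟨he.symm, ?_, ?_, hxy⟩
      · by_cases hxb : x = b
        · exact Or.inl hxb
        · simp only [hxb, if_false] at hx
          exact Or.inr ⟨⟨hxW, hxb⟩, hx⟩
      · by_cases hyb : y = b
        · exact Or.inl hyb
        · simp only [hyb, if_false] at he
          exact Or.inr ⟨⟨hyW, hyb⟩, he.symm⟩
    · refine hc2 v (transGen_restrict (P := fun x => (if x = b then k else g x) ≠ k) ?_ hcv hv).2
      rintro x y hx ⟨hxW, hyW, hxy, he⟩
      change (if x = b then k else g x) = (if y = b then k else g y) at he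
      have hy : (if y = b then k else g y) ≠ k := he ▸ hx
      have hxb : x ≠ b := by rintro rfl; simp at hx
      have hyb : y ≠ b := by rintro rfl; simp at hy
      simp only [hxb, hyb, if_false] at he
      exact ⟨hy, ⟨hxW, hxb⟩, ⟨hyW, hyb⟩, hxy, he⟩

/-- A walk with interior in `Z` from a vertex of `Z` to a vertex of `Z`. -/
private lemma critB_rch {Z : Set V} {b : V} (hb : b ∈ Z) : ∀ (l : List V) (c : V), c ∈ Z →
    (∀ z ∈ l, z ∈ Z) → (c :: (l ++ [b])).IsChain R → Rch R Z c b
  | [], c, hc, _, h => by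
    rw [List.nil_append, List.isChain_cons_cons] at h
    exact ReflTransGen.single ⟨hc, hb, h.1⟩
  | d :: l, c, hc, hl, h => by
    rw [List.cons_append, List.isChain_cons_cons] at h
    have hd : d ∈ Z := hl d (by simp)
    exact ReflTransGen.head ⟨hc, hd, h.1⟩
      (critB_rch hb l d hd (fun z hz => hl z (by simp [hz])) h.2)

/-- Step (b). PROOF. Let `g` be a 2-colouring of `W \ {b}`. Give `b` the colour `1 - g m`. This is a colouring of `W` with two colours, so
there is a monochromatic cycle; it is not in `W \ {b}`, so it goes through `b` and has the colour `1 - g m`, so it avoids `m`: `b → c ⇝ b` in `W \ {m}`. (Technical: for `TransGen r v v` one can move the base point; show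
first that if no vertex of colour `1 - g m` closes a cycle through `b`, then every cycle avoids `b`; compare `exists_petal` and the proof of `hpet` in `ParBFS/K3.lean`, with `A = {z ∈ W \ {b} | g z = 1 - g m}`.) -/
theorem cycle_of_crit {W : Set V} {m b : V} (hR : ∀ v, ¬ R v v) (h : ¬ Colable R W 2) (hb : b ∈ W)
    (hmb : b ≠ m) (hm : m ∈ W) (hc : Colable R (W \ {b}) 2) :
    ∃ c, c ∈ W ∧ c ≠ m ∧ R b c ∧ Rch R (W \ {m}) c b := by
  obtain ⟨g, hg1, hg2⟩ := hc
  have hmW : m ∈ W \ {b} := ⟨hm, fun h => hmb h.symm⟩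
  have hgm : g m < 2 := hg1 m hmW
  obtain ⟨l, hl, hlA⟩ := critB_petal hR h (k := 1 - g m) (by omega) hg1 hg2
  have hsub : ∀ z ∈ l, z ∈ W \ {m} := by
    intro z hz
    obtain ⟨h1, h2⟩ := hlA z hz
    refine ⟨h1.1, ?_⟩
    rintro rfl
    omega
  cases l with
  | nil =>
    rw [List.nil_append, List.isChain_cons_cons] at hl
    exact absurd hl.1 (hR b)
  | cons c l =>
    rw [List.cons_append, List.isChain_cons_cons] at hl
    have hcZ : c ∈ W \ {m} := hsub c (by simp)
    refine ⟨c, hcZ.1, hcZ.2, hl.1, ?_⟩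
    have hbZ : b ∈ W \ {m} := ⟨hb, hmb⟩
    exact critB_rch hbZ l c hcZ (fun z hz => hsub z (by simp [hz])) hl.2

end Pool.Agent.MK3
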