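import Pool.Agent.MK3.PthL

/-! The separation. -/

open Classical

namespace Pool.Agent.MK3

open Relation Pool.Agent.ParBFS

variable {V : Type} {R : V → V → Prop}

/-- Step (c). PROOF. For `x ∈ W`, `x ≠ m` let `N x = {v ∈ W | v ≠ x ∧ ¬ Rch R (W \ {x}) v m}`. Some
`N x` is nonempty; choose `x` with `(N x).ncard` maximal. `A = N x`, `B = W \ (insert x A)`.
`m ∈ B` (`Rch` is reflexive). `arc`: `R a b` with `b ∈ B`: `b` reaches `m` in `W \ {x}`, so `a`
does. `dom`: let `z ∈ B`, `z ≠ m`. (1) `Rch R (W \ {z}) x m` implies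
`Rch R (insert x B \ {z}) x m`: after the last visit of `x` the rest of the walk goes to `m` and
avoids `x`, so its vertices are not in `A`, so in `B`. (2) If `Rch R (W \ {z}) x m` fails then
`x ∈ N z`, and every `a ∈ A` is in `N z`: `a ≠ z`, and if `Rch R (W \ {z}) a m`, then the walk
either avoids `x` (then `a ∉ N x`) or it visits `x` and its rest shows `Rch R (W \ {z}) x m`. So
`insert x A ⊆ N z`, `x ∉ A`, a contradiction to the maximality. -/
theorem exists_sep [Finite V] {W : Set V} {m : V} (hm : m ∈ W)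
    (hF : ¬ ∀ x, x ∈ W → x ≠ m → ∀ v, v ∈ W → v ≠ x → Rch R (W \ {x}) v m) :
    ∃ A B x, x ∈ W ∧ Sep R W A B x m := by
  obtain ⟨N, hN⟩ : ∃ N : V → Set V, N = fun x => {v | v ∈ W ∧ v ≠ x ∧ ¬ Rch R (W \ {x}) v m} :=
    ⟨_, rfl⟩
  have hNm : ∀ x v, v ∈ N x ↔ v ∈ W ∧ v ≠ x ∧ ¬ Rch R (W \ {x}) v m := by
    intro x v
    rw [hN]
    exact Iff.rfl
  push Not at hF
  obtain ⟨x0, hx0, hx0m, v0, hv0, hv0x, hv0r⟩ := hF
  obtain ⟨x, ⟨hxW, hxm⟩, hmax⟩ := Set.exists_max_image {x | x ∈ W ∧ x ≠ m}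
    (fun x => (N x).ncard) (Set.toFinite _) ⟨x0, hx0, hx0m⟩
  have hne : (N x).Nonempty := by
    have h1 : 0 < (N x0).ncard := by
      rw [Set.ncard_pos (Set.toFinite _)]
      exact ⟨v0, (hNm _ _).2 ⟨hv0, hv0x, hv0r⟩⟩
    have h2 := hmax x0 ⟨hx0, hx0m⟩
    exact (Set.ncard_pos (Set.toFinite _)).1 (h1.trans_le h2)
  have hB : ∀ b, b ∈ W \ insert x (N x) ↔ b ∈ W ∧ b ≠ x ∧ Rch R (W \ {x}) b m := by
    intro b
    constructor
    · rintro ⟨h1, h2⟩
      have h3 : b ≠ x := fun h => h2 (Or.inl h)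
      refine ⟨h1, h3, ?_⟩
      by_contra h4
      exact h2 (Or.inr ((hNm _ _).2 ⟨h1, h3, h4⟩))
    · rintro ⟨h1, h2, h3⟩
      refine ⟨h1, ?_⟩
      rintro (h4 | h4)
      · exact h2 h4
      · exact ((hNm _ _).1 h4).2.2 h3
  refine ⟨N x, W \ insert x (N x), x, hxW, ?_, ?_, ?_, ?_, ?_, hne, ?_, ?_⟩
  · ext v
    constructor
    · intro hv
      by_cases h : v ∈ insert x (N x)
      · rcases h with h | h
        · exact Or.inl h
        · exact Or.inr (Or.inl h)
      · exact Or.inr (Or.inr ⟨hv, h⟩)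
    · rintro (h | h | h)
      · rw [h]
        exact hxW
      · exact ((hNm _ _).1 h).1
      · exact h.1
  · intro h
    exact ((hNm _ _).1 h).2.1 rfl
  · intro h
    exact h.2 (Or.inl rfl)
  · intro a ha h
    exact h.2 (Or.inr ha)
  · exact (hB m).2 ⟨hm, hxm.symm, ReflTransGen.refl⟩
  · intro a ha b hb hab
    obtain ⟨hb1, hb2, hb3⟩ := (hB b).1 hb
    obtain ⟨ha1, ha2, ha3⟩ := (hNm _ _).1 ha
    exact ha3 (ReflTransGen.head ⟨⟨ha1, ha2⟩, ⟨hb1, hb2⟩, hab⟩ hb3)
  · intro z hz hzm
    have hzW := hz.1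
    have hzx : z ≠ x := fun h => hz.2 (Or.inl h)
    -- `x` reaches `m` without `z`
    have hreach : Rch R (W \ {z}) x m := by
      by_contra hcon
      have key : ∀ v, Rch R (W \ {z}) v m → Rch R (W \ {x}) v m := by
        intro v hv
        induction hv using ReflTransGen.head_induction_on with
        | refl => exact ReflTransGen.refl
        | head h1 h2 ih =>
          rename_i v w
          have hvx : v ≠ x := by
            rintro rfl
            exact hcon (ReflTransGen.head h1 h2)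
          have hwx : w ≠ x := by
            rintro rfl
            exact hcon h2
          exact ReflTransGen.head ⟨⟨h1.1.1, hvx⟩, ⟨h1.2.1.1, hwx⟩, h1.2.2⟩ ih
      have hsub : insert x (N x) ⊆ N z := by
        rintro v (rfl | hv)
        · exact (hNm _ _).2 ⟨hxW, hzx.symm, hcon⟩
        · obtain ⟨h1, h2, h3⟩ := (hNm _ _).1 hv
          refine (hNm _ _).2 ⟨h1, ?_, fun h4 => h3 (key v h4)⟩
          rintro rfl
          exact hz.2 (Or.inr hv)
      have h1 := Set.ncard_le_ncard hsub (Set.toFinite _)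
      have h2 := hmax z ⟨hzW, hzm⟩
      have h3 : x ∉ N x := fun h => ((hNm _ _).1 h).2.1 rfl
      rw [Set.ncard_insert_of_notMem h3 (Set.toFinite _)] at h1
      have h4 : (N z).ncard ≤ (N x).ncard := h2
      omega
    -- cut away the part before the last visit of `x`
    have key : ∀ v, Rch R (W \ {z}) v m →
        Rch R (insert x (W \ insert x (N x)) \ {z}) x m ∨
          (v ≠ x ∧ Rch R (W \ {x}) v m ∧ Rch R (insert x (W \ insert x (N x)) \ {z}) v m) := by
      intro v hv
      induction hv using ReflTransGen.head_induction_on with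
      | refl => exact Or.inr ⟨hxm.symm, ReflTransGen.refl, ReflTransGen.refl⟩
      | head h1 h2 ih =>
        rename_i v w
        rcases ih with ih | ⟨h3, h4, h5⟩
        · exact Or.inl ih
        · have hw : w ∈ insert x (W \ insert x (N x)) \ {z} :=
            ⟨Or.inr ((hB w).2 ⟨h1.2.1.1, h3, h4⟩), h1.2.1.2⟩
          by_cases hvx : v = x
          · left
            rw [hvx] at h1
            exact ReflTransGen.head ⟨⟨Or.inl rfl, hzx.symm⟩, hw, h1.2.2⟩ h5
          · right
            have h6 : Rch R (W \ {x}) v m :=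
              ReflTransGen.head ⟨⟨h1.1.1, hvx⟩, ⟨h1.2.1.1, h3⟩, h1.2.2⟩ h4
            exact ⟨hvx, h6, ReflTransGen.head
              ⟨⟨Or.inr ((hB v).2 ⟨h1.1.1, hvx, h6⟩), h1.1.2⟩, hw, h1.2.2⟩ h5⟩
    rcases key x hreach with h | h
    · exact h
    · exact absurd rfl h.1

/-- PROOF. `pth_of_rch` for `hs x m`: a walk from `x` to `m` in `W`. After its last visit of `x`
none of its vertices is in `A`, because from a vertex of `A` the next vertex is in `A` or `x`
(`h.arc`), but `m ∈ B`. -/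
theorem sep_path {W A B : Set V} {x m : V} (h : Sep R W A B x m)
    (hs : ∀ a ∈ W, ∀ b ∈ W, Rch R W a b) : Pth R (B \ {m}) x m := by
  have hxW : x ∈ W := by
    rw [h.hW]
    exact Or.inl rfl
  have hmW : m ∈ W := by
    rw [h.hW]
    exact Or.inr (Or.inr h.hm)
  have hxm : x ≠ m := by
    rintro rfl
    exact h.hxB h.hm
  have key : ∀ v, Rch R W v m → Rch R (insert x B) x m ∨ (v ∈ B ∧ Rch R (insert x B) v m) := by
    intro v hv
    induction hv using ReflTransGen.head_induction_on with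
    | refl => exact Or.inr ⟨h.hm, ReflTransGen.refl⟩
    | head h1 h2 ih =>
      rename_i v w
      rcases ih with ih | ⟨h3, h4⟩
      · exact Or.inl ih
      · have hv := h1.1
        rw [h.hW] at hv
        rcases hv with hv | hv | hv
        · left
          rw [hv] at h1
          exact ReflTransGen.head ⟨Or.inl rfl, Or.inr h3, h1.2.2⟩ h4
        · exact absurd h1.2.2 (h.arc v hv w h3)
        · exact Or.inr ⟨hv, ReflTransGen.head ⟨Or.inr hv, Or.inr h3, h1.2.2⟩ h4⟩
  have h1 : Rch R (insert x B) x m := by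
    rcases key x (hs x hxW m hmW) with h1 | h1
    · exact h1
    · exact absurd h1.1 h.hxB
  refine (pth_of_rch hxm h1).mono ?_
  rintro v ⟨hv1, hv2⟩
  refine ⟨?_, fun h2 => hv2 (Or.inr h2)⟩
  rcases hv1 with hv1 | hv1
  · exact absurd (Or.inl hv1) hv2
  · exact hv1

end Pool.Agent.MK3
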