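import Pool.Agent.MK3.PthL

/-! Which paths of a subdivision use new arcs. -/

open Classical

namespace Pool.Agent.MK3

open Relation Pool.Agent.ParBFS

variable {V : Type} {R R' : V → V → Prop}

private theorem first_OutIn {Z : Set V} {x q : V} (hxZ : x ∉ Z) (hxq : x ≠ q)
    (hR : ∀ a b, a ∈ Z → (b = q ∨ b ∈ Z) → R' a b → R a b)
    (hp : Pth R' Z x q) (hd : ¬ Pth R Z x q) :
    ∃ y, y ≠ x ∧ (y = q ∨ y ∈ Z) ∧ R' x y ∧ ¬ R x y ∧
      ∀ (S : V → V → Prop) (P : Set V), (∀ a b, R a b → S a b) → Pth S P x y →
        Pth S (Z ∪ P) x q := by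
  obtain ⟨y, hxy, hy⟩ := pth_first hp
  refine ⟨y, ?_, ?_, hxy, ?_, ?_⟩
  · rcases hy with rfl | ⟨hy, _⟩
    · exact Ne.symm hxq
    · rintro rfl
      exact hxZ hy
  · rcases hy with rfl | ⟨hy, _⟩
    · exact Or.inl rfl
    · exact Or.inr hy
  · intro hr
    apply hd
    rcases hy with rfl | ⟨hy, hp2⟩
    · exact pth_single hr
    · refine (pth_single hr).trans hy (pth_rel (fun a b ha hb hab => hR a b ?_ hb hab) hp2)
      rcases ha with rfl | ha
      · exact hy
      · exact ha
  · intro S P hS hP
    rcases hy with rfl | ⟨hy, hp2⟩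
    · exact hP.mono Set.subset_union_right
    · refine (hP.mono Set.subset_union_right).trans (Or.inl hy) ?_
      refine (pth_rel (fun a b ha hb hab => hS a b (hR a b ?_ hb hab)) hp2).mono
        Set.subset_union_left
      rcases ha with rfl | ha
      · exact hy
      · exact ha

/-- New arcs leave `x`: a path `Z i j` which is not a path for `R` uses one new arc `x → y`, and
the rest can be kept when this arc is replaced by a path.
(`y ≠ x`: take duplicate free paths, `x` is not visited twice.)
PROOF. `x = f i ∨ x ∈ Z i j`, otherwise `pth_rel`. Case `x = f i`: `pth_first` for `R'`: `R' x y`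
and `y = f j` or (`y ∈ Z i j`, `Pth R' (Z i j) y (f j)`); in the second path all arcs are in
`R` (their tails are in `Z i j`, so `≠ x`), `pth_rel`. If `R x y` then `Pth R (Z i j) (f i) (f j)`
(contradiction), so `¬ R x y`. The last property by `Pth.trans`. Case `x ∈ Z i j`: `pth_split` at
`x`: the first alternative is an `R`-path; the second one gives `Pth R (Z i j \ {x}) (f i) x` (no
tail `x`) and `Pth R' (Z i j \ {x}) x (f j)`, to which the first case applies; glue with
`Pth.trans`. -/
theorem out_dep {W : Set V} {f : Fin 3 → V} {Z : Fin 3 → Fin 3 → Set V} (h : TriOn R' W f Z) {x : V}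
    (hR : ∀ a ∈ W, ∀ b ∈ W, a ≠ x → R' a b → R a b) {i j : Fin 3} (hij : i ≠ j)
    (hd : ¬ Pth R (Z i j) (f i) (f j)) :
    (x = f i ∨ x ∈ Z i j) ∧ ∃ y ∈ W, y ≠ x ∧ (y = f j ∨ y ∈ Z i j) ∧ R' x y ∧ ¬ R x y ∧
      ∀ (S : V → V → Prop) (P : Set V), (∀ a b, R a b → S a b) → Pth S P x y →
        Pth S (Z i j ∪ P) (f i) (f j) := by
  have hp := h.path i j hij
  have hsub := h.sub i j
  have hfi := h.mem i
  have hfj := h.mem j
  have hx : x = f i ∨ x ∈ Z i j := by
    by_contra hx
    apply hd
    refine pth_rel (fun a b ha hb hab => ?_) hp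
    have haW : a ∈ W := by
      rcases ha with rfl | ha
      · exact hfi
      · exact hsub ha
    have hbW : b ∈ W := by
      rcases hb with rfl | hb
      · exact hfj
      · exact hsub hb
    refine hR a haW b hbW ?_ hab
    rintro rfl
    exact hx ha
  refine ⟨hx, ?_⟩
  rcases hx with hx | hxZ
  · subst hx
    obtain ⟨y, h1, h2, h3, h4, h5⟩ := first_OutIn (R := R) (R' := R') (Z := Z i j) (x := f i)
      (q := f j) (h.off i j i) (h.inj.ne hij) (by
        intro a b ha hb hab
        refine hR a (hsub ha) b ?_ ?_ hab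
        · rcases hb with rfl | hb
          · exact hfj
          · exact hsub hb
        · rintro rfl
          exact h.off i j i ha) hp hd
    refine ⟨y, ?_, h1, h2, h3, h4, h5⟩
    rcases h2 with rfl | h2
    · exact hfj
    · exact hsub h2
  · have hxi : f i ≠ x := by
      intro hh
      exact h.off i j i (hh ▸ hxZ)
    have hxj : x ≠ f j := by
      intro hh
      exact h.off i j j (hh ▸ hxZ)
    rcases pth_split (p := x) hp with hp0 | ⟨_, hp1, hp2⟩
    · exfalso
      apply hd
      refine (pth_rel (fun a b ha hb hab => ?_) hp0).mono Set.sdiff_subset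
      refine hR a ?_ b ?_ ?_ hab
      · rcases ha with rfl | ha
        · exact hfi
        · exact hsub ha.1
      · rcases hb with rfl | hb
        · exact hfj
        · exact hsub hb.1
      · rcases ha with rfl | ha
        · exact hxi
        · exact ha.2
    · have q1 : Pth R (Z i j \ {x}) (f i) x := by
        refine pth_rel (fun a b ha hb hab => ?_) hp1
        refine hR a ?_ b ?_ ?_ hab
        · rcases ha with rfl | ha
          · exact hfi
          · exact hsub ha.1
        · rcases hb with rfl | hb
          · exact hsub hxZ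
          · exact hsub hb.1
        · rcases ha with rfl | ha
          · exact hxi
          · exact ha.2
      obtain ⟨y, h1, h2, h3, h4, h5⟩ := first_OutIn (R := R) (R' := R') (Z := Z i j \ {x})
        (x := x) (q := f j) (fun hh => hh.2 rfl) hxj (by
          intro a b ha hb hab
          refine hR a (hsub ha.1) b ?_ ha.2 hab
          rcases hb with rfl | hb
          · exact hfj
          · exact hsub hb.1) hp2 (by
          intro hq
          exact hd ((q1.mono Set.sdiff_subset).trans hxZ (hq.mono Set.sdiff_subset)))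
      refine ⟨y, ?_, h1, ?_, h3, h4, ?_⟩
      · rcases h2 with rfl | h2
        · exact hfj
        · exact hsub h2.1
      · rcases h2 with rfl | h2
        · exact Or.inl rfl
        · exact Or.inr h2.1
      · intro S P hS hP
        have q2 : Pth S (Z i j ∪ P) (f i) x :=
          (pth_rel (fun a b _ _ hab => hS a b hab) q1).mono
            (Set.sdiff_subset.trans Set.subset_union_left)
        refine q2.trans (Or.inl hxZ) ((h5 S P hS hP).mono ?_)
        exact Set.union_subset_union_left _ Set.sdiff_subset

/-- Two such paths leave the same branch vertex. -/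
theorem out_same {W : Set V} {f : Fin 3 → V} {Z : Fin 3 → Fin 3 → Set V} (h : TriOn R' W f Z)
    {x : V} {i j k l : Fin 3} (h1 : x = f i ∨ x ∈ Z i j) (h2 : x = f k ∨ x ∈ Z k l) :
    (i, j) = (k, l) ∨ (i = k ∧ x = f i) := by
  rcases h1 with h1 | h1
  · rcases h2 with h2 | h2
    · exact Or.inr ⟨h.inj (h1.symm.trans h2), h1⟩
    · exact absurd (h1 ▸ h2) (h.off k l i)
  · rcases h2 with h2 | h2
    · exact absurd (h2 ▸ h1) (h.off i j k)
    · by_cases hh : (i, j) = (k, l)
      · exact Or.inl hh
      · exact absurd h2 (h.dis i j k l hh x h1)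

/-- New arcs enter `x`: a path `Z i j` which is not a path for `R` ends with the new arc, or
contains `x` inside. PROOF. As `out_dep` with `pth_last`. -/
theorem in_dep {W : Set V} {f : Fin 3 → V} {Z : Fin 3 → Fin 3 → Set V} (h : TriOn R' W f Z) {x : V}
    (hR : ∀ a ∈ W, ∀ b ∈ W, b ≠ x → R' a b → R a b) {i j : Fin 3} (hij : i ≠ j)
    (hd : ¬ Pth R (Z i j) (f i) (f j)) :
    (x = f j ∨ x ∈ Z i j) ∧ (x = f j → ∃ u, (u = f i ∨ (u ∈ Z i j ∧ Pth R (Z i j) (f i) u)) ∧
      R' u x ∧ ¬ R u x) := by
  have hp := h.path i j hij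
  have hsub := h.sub i j
  have hfi := h.mem i
  have hfj := h.mem j
  refine ⟨?_, ?_⟩
  · by_contra hx
    apply hd
    refine pth_rel (fun a b ha hb hab => ?_) hp
    have haW : a ∈ W := by
      rcases ha with rfl | ha
      · exact hfi
      · exact hsub ha
    have hbW : b ∈ W := by
      rcases hb with rfl | hb
      · exact hfj
      · exact hsub hb
    refine hR a haW b hbW ?_ hab
    rintro rfl
    exact hx hb
  · intro hx
    subst hx
    obtain ⟨u, hu, hu2⟩ := pth_last hp
    have key : u = f i ∨ (u ∈ Z i j ∧ Pth R (Z i j) (f i) u) := by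
      rcases hu2 with hu2 | ⟨huZ, hup⟩
      · exact Or.inl hu2
      · refine Or.inr ⟨huZ, ?_⟩
        refine pth_rel (fun a b ha hb hab => ?_) hup
        have haW : a ∈ W := by
          rcases ha with rfl | ha
          · exact hfi
          · exact hsub ha
        have hbZ : b ∈ Z i j := by
          rcases hb with rfl | hb
          · exact huZ
          · exact hb
        refine hR a haW b (hsub hbZ) ?_ hab
        rintro rfl
        exact h.off i j j hbZ
    refine ⟨u, key, hu, ?_⟩
    intro hr
    apply hd
    rcases key with rfl | ⟨huZ, hup⟩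
    · exact pth_single hr
    · exact hup.trans huZ (pth_single hr)

end Pool.Agent.MK3
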