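import Pool.Agent.MK3.Rep

/-! Step (a). -/

open Classical

namespace Pool.Agent.MK3

open Relation Pool.Agent.ParBFS

variable {V : Type} {R : V → V → Prop}

private theorem last_CritA {W W0 : Set V} {m : V} (hm : m ∉ W0) {a : V} (h : Rch R W a m) :
    (∃ r ∈ W0, Pth R (W \ W0) r m) ∨ (a ∉ W0 ∧ (a = m ∨ Pth R (W \ W0) a m)) := by
  refine ReflTransGen.head_induction_on h (Or.inr ⟨hm, Or.inl rfl⟩) ?_
  rintro a b ⟨_, hb, hab⟩ _ ih
  rcases ih with ih | ⟨hb0, ih⟩
  · exact Or.inl ih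
  · have hp : Pth R (W \ W0) a m := by
      rcases ih with ih | ih
      · rw [← ih]
        exact pth_single hab
      · exact (pth_single hab).trans ⟨hb, hb0⟩ ih
    by_cases ha : a ∈ W0
    · exact Or.inl ⟨a, ha, hp⟩
    · exact Or.inr ⟨ha, Or.inr hp⟩

/-- Step (a). PROOF. `exists_strong hv` gives `W0 ⊆ W \ {v}`, not 2-colourable, strong; `W0.ncard < W.ncard` (`Set.ncard_lt_ncard`, `W0 ⊂ W`). If `m ∈ W0`: the hypothesis `ih` gives
`c ∈ W0` and `Tri (addArc R m c) W0`, `tri_mono`. If `m ∉ W0`: `W0` is nonempty; from a vertex `r'` of `W0` there is a walk to `m` in `W`; let `r` be its last vertex in `W0`: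
`Pth R (W \ W0) r m` with `r ∈ W0` (from `pth_of_rch` and `Pth.nodup` and the last element of the list in `W0`, or by induction on the reachability from the tail). `ih` for `W0` and `r`: `c ∈ W0`, `c ≠ r`,
`Tri (addArc R r c) W0`, so (`tri_mono`) `Tri (addArc (addArc R m c) r c) W0`. `tri_replace` for the relation `addArc R m c` and the path
`Pth (addArc R m c) (W \ W0) r c` (the path to `m`, then `m`, then the new arc; `m ∈ W \ W0`). `c ≠ m` because `m ∉ W0`. -/
theorem goal_of_sub [Finite V] (hR : ∀ v, ¬ R v v) {W : Set V} {m v : V} (ih : Hyp V W.ncard)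
    (hs : ∀ a ∈ W, ∀ b ∈ W, Rch R W a b) (hm : m ∈ W) (hvW : v ∈ W)
    (hv : ¬ Colable R (W \ {v}) 2) : Goal R W m := by
  obtain ⟨W0, hW0, hW0c, -, hstr⟩ := exists_strong hv
  have hsub : W0 ⊆ W := hW0.trans Set.sdiff_subset
  have hlt : W0.ncard < W.ncard :=
    Set.ncard_lt_ncard ⟨hsub, fun h => (hW0 (h hvW)).2 rfl⟩ (Set.toFinite _)
  by_cases hm0 : m ∈ W0
  · obtain ⟨c, hc, hcm, hT⟩ := ih R hR W0 hlt hW0c hstr m hm0
    exact ⟨c, hsub hc, hcm, tri_mono hT hsub fun _ _ _ _ h => h⟩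
  · have hne : W0.Nonempty := by
      by_contra hcon
      rw [Set.not_nonempty_iff_eq_empty] at hcon
      refine hW0c ⟨fun _ => 0, fun _ _ => two_pos, fun w hw => ?_⟩
      rcases TransGen.head'_iff.mp hw with ⟨_, h', _⟩
      rw [hcon] at h'
      exact h'.1
    obtain ⟨r', hr'⟩ := hne
    rcases last_CritA hm0 (hs r' (hsub hr') m hm) with ⟨r, hr, hp⟩ | ⟨h1, _⟩
    · obtain ⟨c, hc, hcr, hT⟩ := ih R hR W0 hlt hW0c hstr r hr
      have hmW : m ∈ W \ W0 := ⟨hm, hm0⟩
      refine ⟨c, hsub hc, fun h => hm0 (h ▸ hc), ?_⟩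
      have hT' : Tri (addArc (addArc R m c) r c) W0 :=
        tri_mono hT subset_rfl fun _ _ _ _ h => h.imp Or.inl id
      have hP : Pth (addArc R m c) (W \ W0) r c :=
        Pth.trans (pth_rel (R' := R) (fun _ _ _ _ h => Or.inl h) hp) hmW
          (pth_single (Or.inr ⟨rfl, rfl⟩))
      exact tri_replace hT' hsub hP Set.sdiff_subset fun _ hz => hz.2
    · exact absurd hr' h1

end Pool.Agent.MK3
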