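import Pool.Agent.ParBFS.K3

/-! The bidirected triangle: definitions (paper proof: team-store K3_helper38.md). -/

open Classical

namespace Pool.Agent.MK3

open Relation Pool.Agent.ParBFS

variable {V : Type}

/-- reachability inside a set -/
def Rch (R : V → V → Prop) (Z : Set V) : V → V → Prop :=
  ReflTransGen (fun a b => a ∈ Z ∧ b ∈ Z ∧ R a b)

/-- `l` is the list of interior vertices of a walk from `x` to `y` -/
def LP (R : V → V → Prop) (x : V) (l : List V) (y : V) : Prop := (x :: (l ++ [y])).IsChain R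

/-- add the arc from `m` to `c` -/
def addArc (R : V → V → Prop) (m c : V) : V → V → Prop := fun a b => R a b ∨ (a = m ∧ b = c)

/-- a subdivision of the bidirected triangle inside `W` with branch vertices `f` and paths inside
the disjoint sets `Z i j` -/
structure TriOn (R : V → V → Prop) (W : Set V) (f : Fin 3 → V) (Z : Fin 3 → Fin 3 → Set V) :
    Prop where
  inj : Function.Injective f
  mem : ∀ i, f i ∈ W
  path : ∀ i j, i ≠ j → Pth R (Z i j) (f i) (f j)
  sub : ∀ i j, Z i j ⊆ W
  off : ∀ i j k, f k ∉ Z i j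
  dis : ∀ i j k m, (i, j) ≠ (k, m) → ∀ z ∈ Z i j, z ∉ Z k m

/-- a subdivision of the bidirected triangle inside `W` -/
def Tri (R : V → V → Prop) (W : Set V) : Prop := ∃ f Z, TriOn R W f Z

/-- one new arc out of `m` completes a subdivision of the bidirected triangle inside `W` -/
def Goal (R : V → V → Prop) (W : Set V) (m : V) : Prop :=
  ∃ c ∈ W, c ≠ m ∧ Tri (addArc R m c) W

/-- the rooted theorem for all sets with fewer than `n` vertices -/
def Hyp (V : Type) (n : ℕ) : Prop :=
  ∀ R : V → V → Prop, (∀ v, ¬ R v v) → ∀ W : Set V, W.ncard < n → ¬ Colable R W 2 →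
    (∀ u ∈ W, ∀ v ∈ W, Rch R W u v) → ∀ m ∈ W, Goal R W m

/-- a separation of `W`: no arc from `A` to `B`, and `x` reaches `m` avoiding any other vertex
of `B` -/
structure Sep (R : V → V → Prop) (W A B : Set V) (x m : V) : Prop where
  hW : W = insert x (A ∪ B)
  hxA : x ∉ A
  hxB : x ∉ B
  hAB : ∀ a ∈ A, a ∉ B
  hm : m ∈ B
  hA : A.Nonempty
  arc : ∀ a ∈ A, ∀ b ∈ B, ¬ R a b
  dom : ∀ z ∈ B, z ≠ m → Rch R (insert x B \ {z}) x m

/-- vertices of `B` which `x` reaches without `m` -/
def Ug (R : V → V → Prop) (B : Set V) (x m : V) : Set V :=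
  {u | u ∈ B ∧ u ≠ m ∧ Rch R (insert x B \ {m}) x u}

/-- entries of `A` from `Ug` -/
def Yg (R : V → V → Prop) (A B : Set V) (x m : V) : Set V :=
  {y | y ∈ A ∧ ∃ u ∈ Ug R B x m, R u y}

/-- the digraph of case 1 -/
def RH (R : V → V → Prop) (A B : Set V) (x m : V) : V → V → Prop :=
  fun a b => R a b ∨ (a = x ∧ b ∈ Yg R A B x m)

/-- A cycle `L, q1, X, q2, T` through `b` (its first vertex; `L = []` means `q1 = b`) and paths `q1, P1, m` and
`q2, P2, m`, everything disjoint. -/
def Cfg (R : V → V → Prop) (m b : V) (L : List V) : Prop :=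
  ∃ (q1 q2 : V) (X T P1 P2 : List V), (L ++ [q1]).IsChain R ∧ (L ++ [q1]).head? = some b ∧
    LP R q1 X q2 ∧ LP R q2 T b ∧ LP R q1 P1 m ∧ LP R q2 P2 m ∧
    (m :: q1 :: q2 :: (L ++ (X ++ (T ++ (P1 ++ P2))))).Nodup

/-- new arcs into `x` -/
def RU (R : V → V → Prop) (U : Set V) (x : V) : V → V → Prop := fun a b => R a b ∨ (b = x ∧ a ∈ U)

end Pool.Agent.MK3
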