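import Pool.Agent.MK3.PthA

/-! Paths: basic operations, second part. -/

open Classical

namespace Pool.Agent.MK3

open Relation Pool.Agent.ParBFS

variable {V : Type} {R R' : V → V → Prop}

private theorem split_PthB {Z : Set V} {y p : V} (l : List V) : ∀ x : V,
    (x :: (l ++ [y])).IsChain R → (∀ z ∈ l, z ∈ Z) →
    Pth R (Z \ {p}) x y ∨ (p ∈ Z ∧ Pth R (Z \ {p}) x p ∧ Pth R (Z \ {p}) p y) := by
  induction l with
  | nil =>
    intro x hc _
    rw [List.nil_append, List.isChain_cons_cons] at hc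
    exact Or.inl (pth_single hc.1)
  | cons c l ih =>
    intro x hc hz
    rw [List.cons_append, List.isChain_cons_cons] at hc
    have hcZ : c ∈ Z := hz c List.mem_cons_self
    have h1 := ih c hc.2 fun z hzl => hz z (List.mem_cons_of_mem _ hzl)
    by_cases hcp : c = p
    · subst hcp
      right
      rcases h1 with h1 | ⟨_, _, h1⟩
      · exact ⟨hcZ, pth_single hc.1, h1⟩
      · exact ⟨hcZ, pth_single hc.1, h1⟩
    · have hc' : c ∈ Z \ {p} := ⟨hcZ, hcp⟩
      rcases h1 with h1 | ⟨hp, h1, h2⟩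
      · exact Or.inl ((pth_single hc.1).trans hc' h1)
      · exact Or.inr ⟨hp, (pth_single hc.1).trans hc' h1, h2⟩

/-- split at a vertex. PROOF: take a list `l` of `hp`. If `p ∉ l` the first alternative. Otherwise cut
at the first and at the last occurrence of `p` (or use `Pth.nodup` and `List.append_of_mem`:
`l = l1 ++ p :: l2` with `p ∉ l1`, `p ∉ l2`). -/
theorem pth_split {Z : Set V} {x y p : V} (hp : Pth R Z x y) :
    Pth R (Z \ {p}) x y ∨ (p ∈ Z ∧ Pth R (Z \ {p}) x p ∧ Pth R (Z \ {p}) p y) := by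
  obtain ⟨l, hl, hz⟩ := hp
  exact split_PthB l x hl hz

/-- from reachability to paths. PROOF: induction on `h` (head or tail), or on the chain; a step back to
`x` (or to `y` before the end) is cut away with `pth_split`. -/
theorem pth_of_rch {Z : Set V} {x y : V} (hxy : x ≠ y) (h : Rch R Z x y) :
    Pth R (Z \ {x, y}) x y := by
  have key : ∀ u, ReflTransGen (fun a b => a ∈ Z ∧ b ∈ Z ∧ R a b) u y → u ≠ y →
      Pth R (Z \ {u, y}) u y := by
    intro u hu
    induction hu using ReflTransGen.head_induction_on with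
    | refl => exact fun h => absurd rfl h
    | @head a c hab hcy' ih =>
      intro hay
      by_cases hcy : c = y
      · subst hcy
        exact pth_single hab.2.2
      · have h1 : Pth R (Z \ {y}) c y := (ih hcy).mono fun z hz =>
          ⟨hz.1, fun h2 => hz.2 (Or.inr h2)⟩
        have h2 : Pth R (Z \ {y}) a y := (pth_single hab.2.2).trans ⟨hab.2.1, hcy⟩ h1
        have h3 : (Z \ {y}) \ {a} ⊆ Z \ {a, y} := fun z hz =>
          ⟨hz.1.1, fun h4 => h4.elim (fun h5 => hz.2 h5) fun h5 => hz.1.2 h5⟩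
        rcases pth_split (p := a) h2 with h4 | ⟨_, _, h4⟩
        · exact h4.mono h3
        · exact h4.mono h3
  exact key x h hxy

private theorem rch_PthB {W : Set V} {y : V} (hy : y ∈ W) (l : List V) : ∀ x : V, x ∈ W →
    (x :: (l ++ [y])).IsChain R → (∀ z ∈ l, z ∈ W) → Rch R W x y := by
  induction l with
  | nil =>
    intro x hx hc _
    rw [List.nil_append, List.isChain_cons_cons] at hc
    exact ReflTransGen.single ⟨hx, hy, hc.1⟩
  | cons c l ih =>
    intro x hx hc hz
    rw [List.cons_append, List.isChain_cons_cons] at hc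
    have hcW : c ∈ W := hz c List.mem_cons_self
    exact ReflTransGen.head ⟨hx, hcW, hc.1⟩
      (ih c hcW hc.2 fun z hzl => hz z (List.mem_cons_of_mem _ hzl))

/-- from paths to reachability. -/
theorem rch_of_pth {Z : Set V} {x y : V} (h : Pth R Z x y) : Rch R (Z ∪ {x, y}) x y := by
  obtain ⟨l, hl, hz⟩ := h
  have hy : y ∈ Z ∪ {x, y} := Or.inr (Or.inr rfl)
  have hx : x ∈ Z ∪ {x, y} := Or.inr (Or.inl rfl)
  exact rch_PthB hy l x hx hl fun z hzl => Or.inl (hz z hzl)

/-- the set version gives the list version. PROOF: for `i ≠ j` take the duplicate free list of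
`(h.path i j hij).nodup`, `[]` for `i = j`. -/
theorem sub_of_tri {W : Set V} (h : Tri R W) : Sub (fun i j : Fin 3 => i ≠ j) R W := by
  obtain ⟨f, Z, h⟩ := h
  have hex : ∀ i j, ∃ l : List V, i ≠ j → (f i :: (l ++ [f j])).IsChain R ∧ l.Nodup ∧
      ∀ z ∈ l, z ∈ Z i j := by
    intro i j
    by_cases hij : i = j
    · exact ⟨[], fun h1 => absurd hij h1⟩
    · obtain ⟨l, h1, h2, h3⟩ := (h.path i j hij).nodup
      exact ⟨l, fun _ => ⟨h1, h2, h3⟩⟩
  choose l hl using hex
  refine ⟨f, l, h.inj, h.mem, fun i j hij => ?_, fun i j k m hij hkm hne z hz hz' => ?_⟩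
  · obtain ⟨h1, h2, h3⟩ := hl i j hij
    refine ⟨h1, h2, fun z hz => ⟨h.sub i j (h3 z hz), fun k hk => ?_⟩⟩
    apply h.off i j k
    rw [← hk]
    exact h3 z hz
  · exact h.dis i j k m hne z ((hl i j hij).2.2 z hz) ((hl k m hkm).2.2 z hz')

end Pool.Agent.MK3
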