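import Pool.Agent.MK3.Menger
import Pool.Agent.MK3.PthL

/-! A fan of two paths. -/

open Classical

namespace Pool.Agent.MK3

open Relation Pool.Agent.ParBFS

variable {V : Type} {R : V → V → Prop}

/-- cut a list at its first element in `T` -/
private theorem Fan2_cut {T : Set V} : ∀ l : List V, (∃ b ∈ l, b ∈ T) →
    ∃ p t q, l = p ++ t :: q ∧ t ∈ T ∧ ∀ v ∈ p, v ∉ T := by
  intro l
  induction l with
  | nil =>
    rintro ⟨b, hb, -⟩
    simp at hb
  | cons x l ih =>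
    rintro ⟨b, hb, hbT⟩
    by_cases hx : x ∈ T
    · exact ⟨[], x, l, rfl, hx, by simp⟩
    · have hb' : b ∈ l := by
        rcases List.mem_cons.mp hb with rfl | h
        · exact absurd hbT hx
        · exact h
      obtain ⟨p, t, q, rfl, ht, hp⟩ := ih ⟨b, hb', hbT⟩
      refine ⟨x :: p, t, q, rfl, ht, ?_⟩
      intro v hv
      rcases List.mem_cons.mp hv with rfl | h
      · exact hx
      · exact hp v h

/-- the elements of a chain for the relation away from `s` are different from `s` -/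
private theorem Fan2_ne {s : V} : ∀ l : List V,
    l.IsChain (fun a b => R a b ∧ a ≠ s ∧ b ≠ s) → (∀ a, l.head? = some a → a ≠ s) →
    ∀ v ∈ l, v ≠ s := by
  intro l
  induction l with
  | nil =>
    intro _ _ v hv
    simp at hv
  | cons x l ih =>
    intro h1 h2 v hv
    rcases List.mem_cons.mp hv with rfl | hv
    · exact h2 v rfl
    · rw [List.isChain_cons] at h1
      exact ih h1.2 (fun a ha => (h1.1 a ha).2.2) v hv

/-- one path of the fan -/
private theorem Fan2_one {s : V} {T : Set V} {l : List V} {a b : V}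
    (hl : l.IsChain (fun a b => R a b ∧ a ≠ s ∧ b ≠ s)) (ha : R s a ∧ a ≠ s)
    (hh : l.head? = some a) (hb : b ∈ T) (hg : l.getLast? = some b) :
    ∃ t ∈ T, t ∈ l ∧ ∃ p : List V, LP R s p t ∧ p.Nodup ∧ ∀ v ∈ p, v ∈ l ∧ v ∉ T ∧ v ≠ s := by
  have hne := Fan2_ne l hl (fun c hc => by
    rw [hh] at hc
    rw [← Option.some.inj hc]
    exact ha.2)
  have hR : (s :: l).IsChain R := by
    rw [List.isChain_cons]
    refine ⟨fun c hc => ?_, hl.imp (fun _ _ h => h.1)⟩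
    rw [hh] at hc
    rw [← Option.some.inj hc]
    exact ha.1
  obtain ⟨p, t, q, rfl, ht, hp⟩ := Fan2_cut l ⟨b, List.mem_of_getLast? hg, hb⟩
  have h3 : (s :: (p ++ [t])).IsChain R := by
    rw [← List.cons_append, List.isChain_split] at hR
    exact hR.1
  obtain ⟨p', g1, g2, g3⟩ := nodup_of_chain (Z := Set.univ) p.length p le_rfl h3
    (fun _ _ => trivial)
  refine ⟨t, ht, by simp, p', g1, g3, ?_⟩
  intro v hv
  have hvp := (g2 v hv).2
  have hvl : v ∈ p ++ t :: q := List.mem_append_left _ hvp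
  exact ⟨hvl, hp v hvp, hne v hvl⟩

/-- cut a walk after its last visit of `s` -/
private theorem Fan2_last {s : V} {Z : Set V} {t : V} (h : Rch R Z s t) :
    t = s ∨ ∃ a, (R s a ∧ a ≠ s) ∧ a ∈ Z ∧ t ∈ Z ∧
      Rch (fun a b => R a b ∧ a ≠ s ∧ b ≠ s) Z a t := by
  unfold Rch at h
  induction h with
  | refl => exact Or.inl rfl
  | @tail b c _ hbc ih =>
    by_cases hc : c = s
    · exact Or.inl hc
    · right
      by_cases hb : b = s
      · subst hb
        exact ⟨c, ⟨hbc.2.2, hc⟩, hbc.2.1, hbc.2.1, ReflTransGen.refl⟩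
      · rcases ih with h1 | ⟨a, h1, h2, _, h3⟩
        · exact absurd h1 hb
        · exact ⟨a, h1, h2, hbc.2.1, ReflTransGen.tail h3 ⟨hbc.1, hbc.2.1, hbc.2.2, hb, hc⟩⟩

/-- a fan of two paths. PROOF: `menger2` with `A = {v | R s v ∧ v ≠ s}` and the relation `R` restricted to
vertices `≠ s` (for `z = s`: a path from `s` to `T` avoiding another vertex, cut after its last visit of `s`; for
`z ≠ s`: hypothesis, the same cut; the part after `s` starts in `A`). Cut both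
paths at their first vertex in `T` and make them duplicate free. -/
theorem fan2 [Finite V] {s : V} {T : Set V} (hs : s ∉ T)
    (h : ∀ z, z ≠ s → ∃ t ∈ T, t ≠ z ∧ Rch R {v | v ≠ z} s t) (hT : ∃ v, v ≠ s) :
    ∃ t1 ∈ T, ∃ t2 ∈ T, t1 ≠ t2 ∧ ∃ l1 l2 : List V, LP R s l1 t1 ∧ LP R s l2 t2 ∧
      (l1 ++ l2).Nodup ∧ ∀ v ∈ l1 ++ l2, v ∉ T ∧ v ≠ s := by
  have : Nonempty V := ⟨s⟩
  have key : ∀ z, ∃ a ∈ {v | R s v ∧ v ≠ s}, ∃ b ∈ T, a ≠ z ∧ b ≠ z ∧
      Rch (fun a b => R a b ∧ a ≠ s ∧ b ≠ s) {v | v ≠ z} a b := by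
    intro z
    by_cases hz : z = s
    · subst hz
      obtain ⟨w, hw⟩ := hT
      obtain ⟨t, ht, _, h2⟩ := h w hw
      have hts : t ≠ z := fun e => hs (e ▸ ht)
      rcases Fan2_last h2 with h3 | ⟨a, h3, _, _, h6⟩
      · exact absurd h3 hts
      · refine ⟨a, h3, t, ht, h3.2, hts, ?_⟩
        unfold Rch at h6 ⊢
        exact ReflTransGen.mono
          (fun x y hxy => ⟨hxy.2.2.2.1, hxy.2.2.2.2, hxy.2.2⟩) _ _ h6
    · obtain ⟨t, ht, h1, h2⟩ := h z hz
      have hts : t ≠ s := fun e => hs (e ▸ ht)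
      rcases Fan2_last h2 with h3 | ⟨a, h3, h4, _, h6⟩
      · exact absurd h3 hts
      · exact ⟨a, h3, t, ht, h4, h1, h6⟩
  obtain ⟨l1, l2, c1, c2, ⟨a1, ha1, e1⟩, ⟨a2, ha2, e2⟩, ⟨b1, hb1, f1⟩, ⟨b2, hb2, f2⟩, hd⟩ :=
    menger2 key
  obtain ⟨t1, ht1, m1, p1, q1, n1, k1⟩ := Fan2_one c1 ha1 e1 hb1 f1
  obtain ⟨t2, ht2, m2, p2, q2, n2, k2⟩ := Fan2_one c2 ha2 e2 hb2 f2
  refine ⟨t1, ht1, t2, ht2, ?_, p1, p2, q1, q2, ?_, ?_⟩
  · rintro rfl
    exact hd _ m1 m2
  · rw [List.nodup_append]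
    refine ⟨n1, n2, ?_⟩
    intro x hx y hy hxy
    subst hxy
    exact hd _ (k1 x hx).1 (k2 x hy).1
  · intro v hv
    rcases List.mem_append.mp hv with hv | hv
    · exact (k1 v hv).2
    · exact (k2 v hv).2

end Pool.Agent.MK3
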