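import Pool.Agent.MK3.PthL
import Pool.Agent.MK3.Fan2

/-! The first configuration. -/

open Classical

namespace Pool.Agent.MK3

open Relation Pool.Agent.ParBFS

variable {V : Type} {R : V → V → Prop}

/-- reversal -/
private theorem lp_rev_Init {x y : V} {l : List V} (h : LP (Function.swap R) x l y) :
    LP R y l.reverse x := by
  unfold LP at h ⊢
  have h1 : y :: (l.reverse ++ [x]) = (x :: (l ++ [y])).reverse := by simp
  rw [h1, List.isChain_reverse]
  exact h

/-- reversal -/
private theorem rch_rev_Init {Z : Set V} {x y : V} (h : Rch R Z x y) :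
    Rch (Function.swap R) Z y x := by
  unfold Rch at h ⊢
  rw [← reflTransGen_swap] at h
  refine ReflTransGen.mono ?_ _ _ h
  intro a b hab
  exact ⟨hab.2.1, hab.1, hab.2.2⟩

private theorem aux_Init {m b : V} {l L X T P Q : List V} {p q : V} (hl : LP R b l b)
    (hn : (m :: b :: l).Nodup) (hQ : b :: l = L ++ p :: (X ++ q :: T)) (hP : LP R p P m)
    (hQ' : LP R q Q m) (hPQ : (P ++ Q).Nodup) (hoff : ∀ v ∈ P ++ Q, v ∉ b :: l ∧ v ≠ m) :
    Cfg R m b L := by
  have h0 : b :: (l ++ [b]) = L ++ p :: (X ++ q :: (T ++ [b])) := by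
    rw [← List.cons_append, hQ]
    simp
  unfold LP at hl
  rw [h0] at hl
  obtain ⟨h1, h2⟩ := List.isChain_split.1 hl
  have h3 : p :: (X ++ q :: (T ++ [b])) = (p :: X) ++ q :: (T ++ [b]) := rfl
  rw [h3] at h2
  obtain ⟨h4, h5⟩ := List.isChain_split.1 h2
  refine ⟨p, q, X, T, P, Q, h1, ?_, h4, h5, hP, hQ', ?_⟩
  · cases L with
    | nil =>
      simp only [List.nil_append, List.cons.injEq] at hQ
      simp [hQ.1]
    | cons c L' =>
      simp only [List.cons_append, List.cons.injEq] at hQ
      simp [hQ.1]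
  · have h6 : (m :: (b :: l) ++ (P ++ Q)).Nodup := by
      rw [List.nodup_append]
      refine ⟨hn, hPQ, ?_⟩
      intro a ha c hc hac
      subst hac
      obtain ⟨h7, h8⟩ := hoff a hc
      rcases List.mem_cons.1 ha with h9 | h9
      · exact h8 h9
      · exact h7 h9
    refine (List.Perm.nodup_iff ?_).1 h6
    rw [hQ, List.perm_iff_count]
    intro a
    simp only [List.count_cons, List.count_append]
    ring

/-- The first configuration. PROOF. `Q = b :: l`, a duplicate free list with `LP R b l b`, `m ∉ Q` and `l ≠ []`. Apply `fan2` to the reversed relation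
`Function.swap R`, `s = m`, `T = {v | v ∈ Q}`: for `z ≠ m` take a vertex `v ≠ z` of `Q` (there are two), it has an out-neighbour, `hF z _ v` gives
`Rch R {u | u ≠ z} v m`, reverse it. (For `hT`: `b ≠ m`.) This gives `p ≠ q` in `Q` and disjoint paths `q1, P1, m` and `q2, P2, m` (reversed lists) which avoid `Q` and `m`. Order `p`, `q` along
the list `Q`: `Q = L ++ q1 :: (X ++ q2 :: T)` with `{q1, q2} = {p, q}` (first one of the two with `List.append_of_mem`, then the other one in one of the two halves). -/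
theorem cfg_init [Finite V] {m b : V} {l : List V} (hl : LP R b l b) (hn : (m :: b :: l).Nodup)
    (hl0 : l ≠ []) (hF : ∀ x, x ≠ m → ∀ v, v ≠ x → (∃ u, R v u) → Rch R {z | z ≠ x} v m) :
    ∃ L, Cfg R m b L := by
  have hne : ∀ z, ∃ v ∈ b :: l, v ≠ z := by
    intro z
    by_cases hz : b = z
    · obtain ⟨c, l', rfl⟩ := List.exists_cons_of_ne_nil hl0
      refine ⟨c, by simp, ?_⟩
      rw [← hz]
      simp only [List.nodup_cons, List.mem_cons, not_or] at hn
      exact fun h => hn.2.1.1 h.symm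
    · exact ⟨b, by simp, hz⟩
  have hout : ∀ v ∈ b :: l, ∃ u, R v u := by
    intro v hv
    obtain ⟨l1, l2, h1⟩ := List.append_of_mem hv
    have h2 : b :: (l ++ [b]) = l1 ++ v :: (l2 ++ [b]) := by
      rw [← List.cons_append, h1]
      simp
    unfold LP at hl
    rw [h2] at hl
    have h3 := (List.isChain_split.1 hl).2
    cases l2 with
    | nil => exact ⟨b, List.isChain_pair.1 h3⟩
    | cons c l2' => exact ⟨c, (List.isChain_cons_cons.1 h3).1⟩
  have hm : m ∉ b :: l := (List.nodup_cons.1 hn).1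
  obtain ⟨p, hp, q, hq, hpq, P, Q, hP, hQ, hPQ, hoff⟩ := fan2 (R := Function.swap R) (s := m)
    (T := {v | v ∈ b :: l}) hm (by
      intro z hz
      obtain ⟨v, hv, hvz⟩ := hne z
      exact ⟨v, hv, hvz, rch_rev_Init (hF z hz v hvz (hout v hv))⟩)
    ⟨b, fun h => hm (by rw [← h]; simp)⟩
  have hP' := lp_rev_Init hP
  have hQ' := lp_rev_Init hQ
  have hPQ1 : (P.reverse ++ Q.reverse).Nodup := by
    refine (List.Perm.nodup_iff ?_).1 hPQ
    exact (List.reverse_perm P).symm.append (List.reverse_perm Q).symm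
  have hPQ2 : (Q.reverse ++ P.reverse).Nodup := (List.Perm.nodup_iff List.perm_append_comm).1 hPQ1
  have hoff1 : ∀ v ∈ P.reverse ++ Q.reverse, v ∉ b :: l ∧ v ≠ m := by
    intro v hv
    refine hoff v ?_
    simpa using hv
  have hoff2 : ∀ v ∈ Q.reverse ++ P.reverse, v ∉ b :: l ∧ v ≠ m := by
    intro v hv
    refine hoff v ?_
    simpa [or_comm] using hv
  obtain ⟨L, B, hLB⟩ := List.append_of_mem (show p ∈ b :: l from hp)
  have hq' : q ∈ L ++ p :: B := hLB ▸ (show q ∈ b :: l from hq)
  rcases List.mem_append.1 hq' with h1 | h1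
  · obtain ⟨L1, X, rfl⟩ := List.append_of_mem h1
    refine ⟨L1, aux_Init hl hn (X := X) (T := B) ?_ hQ' hP' hPQ2 hoff2⟩
    rw [hLB]
    simp
  · rcases List.mem_cons.1 h1 with h2 | h2
    · exact absurd h2.symm hpq
    · obtain ⟨X, T, rfl⟩ := List.append_of_mem h2
      exact ⟨L, aux_Init hl hn (X := X) (T := T) hLB hP' hQ' hPQ1 hoff1⟩

end Pool.Agent.MK3
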