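import Pool.Agent.MK3.Step
import Pool.Agent.MK3.Init

/-! Lemma 1. -/

open Classical

namespace Pool.Agent.MK3

open Relation Pool.Agent.ParBFS

variable {V : Type} {R : V → V → Prop}

private theorem chain_LemOne {W : Set V} {l : List V} (h : l.IsChain R) (hW : ∀ z ∈ l, z ∈ W) :
    l.IsChain (fun a b => a ∈ W ∧ b ∈ W ∧ R a b) := by
  induction l with
  | nil => exact List.IsChain.nil
  | cons x l ih =>
    cases l with
    | nil => exact List.IsChain.singleton x
    | cons y l =>
      rw [List.isChain_cons_cons] at h ⊢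
      exact ⟨⟨hW x (by simp), hW y (by simp), h.1⟩,
        ih h.2 fun z hz => hW z (List.mem_cons_of_mem x hz)⟩

private theorem mem_LemOne {W : Set V} {x y : V} {l : List V}
    (h : LP (fun a b => a ∈ W ∧ b ∈ W ∧ R a b) x l y) :
    x ∈ W ∧ y ∈ W ∧ ∀ z ∈ l, z ∈ W := by
  unfold LP at h
  induction l generalizing x with
  | nil =>
    have h1 : x ∈ W ∧ y ∈ W ∧ R x y := by simpa using h
    exact ⟨h1.1, h1.2.1, by simp⟩
  | cons c l ih =>
    rw [List.cons_append, List.isChain_cons_cons] at h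
    obtain ⟨h1, h2⟩ := h
    obtain ⟨h3, h4, h5⟩ := ih h2
    refine ⟨h1.1, h4, fun z hz => ?_⟩
    rcases List.mem_cons.1 hz with rfl | hz
    · exact h3
    · exact h5 z hz

private theorem pth_LemOne {W Z : Set V} {x y m c : V} {l : List V}
    (h : LP (fun a b => a ∈ W ∧ b ∈ W ∧ R a b) x l y) (hZ : ∀ z ∈ l, z ∈ Z) :
    Pth (addArc R m c) Z x y :=
  ⟨l, List.IsChain.imp (fun _ _ hab => Or.inl hab.2.2) h, hZ⟩

/-- LEMMA 1. PROOF. Let `S a b := a ∈ W ∧ b ∈ W ∧ R a b`. From `hcyc` a duplicate free cycle `b ::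
l` in `W - m` (`l ≠ []` because `R` has no loops; the path `c ⇝ b` inside `W \ {m}`, made
duplicate free: `pth_of_rch`, `Pth.nodup`), `cfg_init` and `cfg_nil` for `S` (in `hF'` a vertex
`v` with `S v u` is in `W`; `Rch R (W \ {x}) v m` implies `Rch S {z | z ≠ x} v m`). `Cfg S m b []`
gives `q1 = b`, `c = q2`, and `f = ![m, b, c]` with the sets `Z 0 1 = ∅` (arc `m → b`), `Z 0 2 =
∅` (the new arc), `Z 1 0 = P1`, `Z 1 2 = X`, `Z 2 0 = P2`, `Z 2 1 = T` (sets of list elements),
all other sets empty. Inner vertices of an `S`-path are in `W`; `m ∈ W`, `b ∈ W`, `c ∈ W`. -/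
theorem lemma_one [Finite V] (hR : ∀ v, ¬ R v v) {W : Set V} {m b : V} (hm : m ∈ W) (hb : b ∈ W)
    (hmb : R m b) (hcyc : ∃ c, c ∈ W ∧ c ≠ m ∧ R b c ∧ Rch R (W \ {m}) c b)
    (hF : ∀ x, x ∈ W → x ≠ m → ∀ v, v ∈ W → v ≠ x → Rch R (W \ {x}) v m) : Goal R W m := by
  obtain ⟨c, hc, hcm, hbc, hcb⟩ := hcyc
  have hbm : b ≠ m := by
    rintro rfl
    exact hR b hmb
  have hcb' : c ≠ b := by
    rintro rfl
    exact hR c hbc
  -- the cycle
  obtain ⟨l', hl', hln, hlW⟩ := (pth_of_rch hcb' hcb).nodup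
  have hlW' : ∀ z ∈ l', z ∈ W ∧ z ≠ m ∧ z ≠ c ∧ z ≠ b := by
    intro z hz
    obtain ⟨⟨h1, h2⟩, h3⟩ := hlW z hz
    exact ⟨h1, h2, fun h => h3 (Or.inl h), fun h => h3 (Or.inr h)⟩
  have hl : LP (fun a b => a ∈ W ∧ b ∈ W ∧ R a b) b (c :: l') b := by
    refine chain_LemOne ?_ ?_
    · rw [List.cons_append, List.isChain_cons_cons]
      exact ⟨hbc, hl'⟩
    · intro z hz
      simp only [List.cons_append, List.mem_cons, List.mem_append, List.not_mem_nil,
        or_false] at hz
      rcases hz with rfl | rfl | hz | rfl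
      · exact hb
      · exact hc
      · exact (hlW' z hz).1
      · exact hb
  have hn : (m :: b :: c :: l').Nodup := by
    rw [List.nodup_cons, List.nodup_cons, List.nodup_cons]
    refine ⟨?_, ?_, ?_, hln⟩
    · intro h
      simp only [List.mem_cons] at h
      rcases h with h | h | h
      · exact hbm h.symm
      · exact hcm h.symm
      · exact (hlW' m h).2.1 rfl
    · intro h
      simp only [List.mem_cons] at h
      rcases h with h | h
      · exact hcb' h.symm
      · exact (hlW' b h).2.2.2 rfl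
    · intro h
      exact (hlW' c h).2.2.1 rfl
  -- the connectivity
  have hF' : ∀ x, x ≠ m → ∀ v, v ≠ x → (∃ u, v ∈ W ∧ u ∈ W ∧ R v u) →
      Rch (fun a b => a ∈ W ∧ b ∈ W ∧ R a b) {z | z ≠ x} v m := by
    intro x hxm v hvx hu
    obtain ⟨u, hv, -, -⟩ := hu
    by_cases hx : x ∈ W
    · refine ReflTransGen.mono ?_ _ _ (hF x hx hxm v hv hvx)
      rintro a a' ⟨h1, h2, h3⟩
      exact ⟨h1.2, h2.2, h1.1, h2.1, h3⟩
    · obtain ⟨x', hx', hx'm, hvx'⟩ : ∃ x', x' ∈ W ∧ x' ≠ m ∧ v ≠ x' := by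
        by_cases hvb : v = b
        · exact ⟨c, hc, hcm, fun h => hcb' (by rw [← h, hvb])⟩
        · exact ⟨b, hb, hbm, hvb⟩
      refine ReflTransGen.mono ?_ _ _ (hF x' hx' hx'm v hv hvx')
      rintro a a' ⟨h1, h2, h3⟩
      exact ⟨fun h => hx (h ▸ h1.1), fun h => hx (h ▸ h2.1), h1.1, h2.1, h3⟩
  obtain ⟨L, hL⟩ := cfg_init hl hn (List.cons_ne_nil c l') hF'
  obtain ⟨q1, q2, X, T, P1, P2, -, hq1, hX, hT, hP1, hP2, hnd⟩ := cfg_nil hL hF'
  have hq1' : q1 = b := by simpa using hq1
  subst hq1'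
  rw [List.nil_append, List.nodup_cons, List.nodup_cons, List.nodup_cons] at hnd
  obtain ⟨hnm, hnb, hnq, hnd⟩ := hnd
  simp only [List.mem_cons, List.mem_append, not_or] at hnm hnb hnq
  obtain ⟨hmb', hmq, hmX, hmT, hmP1, hmP2⟩ := hnm
  obtain ⟨hbq, hbX, hbT, hbP1, hbP2⟩ := hnb
  obtain ⟨hqX, hqT, hqP1, hqP2⟩ := hnq
  have d1 : ∀ z, z ∈ X → z ∉ T ∧ z ∉ P1 ∧ z ∉ P2 := by
    intro z hz
    have h1 : z ∉ T ++ (P1 ++ P2) := List.disjoint_of_nodup_append hnd hz
    simpa only [List.mem_append, not_or] using h1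
  have hnd2 := hnd.of_append_right
  have d2 : ∀ z, z ∈ T → z ∉ P1 ∧ z ∉ P2 := by
    intro z hz
    have h1 : z ∉ P1 ++ P2 := List.disjoint_of_nodup_append hnd2 hz
    simpa only [List.mem_append, not_or] using h1
  have hnd3 := hnd2.of_append_right
  have d3 : ∀ z, z ∈ P1 → z ∉ P2 := fun z hz => List.disjoint_of_nodup_append hnd3 hz
  have mX := mem_LemOne hX
  have mT := mem_LemOne hT
  have mP1 := mem_LemOne hP1
  have mP2 := mem_LemOne hP2
  refine ⟨q2, mX.2.1, fun h => hmq h.symm, ![m, q1, q2], fun i j => {z | z ∈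
    (![![[], [], []], ![P1, [], X], ![P2, T, []]] : Fin 3 → Fin 3 → List V) i j}, ?_⟩
  constructor
  · intro i j hij
    fin_cases i <;> fin_cases j <;> first | rfl | (exfalso; revert hij; simp; tauto)
  · intro i
    fin_cases i
    · exact hm
    · exact hb
    · exact mX.2.1
  · intro i j hij
    fin_cases i <;> fin_cases j
    · exact absurd rfl hij
    · exact pth_single (Or.inl hmb)
    · exact pth_single (Or.inr ⟨rfl, rfl⟩)
    · exact pth_LemOne hP1 fun z hz => hz
    · exact absurd rfl hij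
    · exact pth_LemOne hX fun z hz => hz
    · exact pth_LemOne hP2 fun z hz => hz
    · exact pth_LemOne hT fun z hz => hz
    · exact absurd rfl hij
  · intro i j z hz
    fin_cases i <;> fin_cases j
    · exact absurd hz List.not_mem_nil
    · exact absurd hz List.not_mem_nil
    · exact absurd hz List.not_mem_nil
    · exact mP1.2.2 z hz
    · exact absurd hz List.not_mem_nil
    · exact mX.2.2 z hz
    · exact mP2.2.2 z hz
    · exact mT.2.2 z hz
    · exact absurd hz List.not_mem_nil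
  · intro i j k
    fin_cases i <;> fin_cases j <;> fin_cases k <;>
      first | exact List.not_mem_nil | assumption
  · intro i j k n hne z
    have e1 := d1 z
    have e2 := d2 z
    have e3 := d3 z
    fin_cases i <;> fin_cases j <;> fin_cases k <;> fin_cases n <;>
      first
      | exact absurd rfl hne
      | exact fun _ => List.not_mem_nil
      | exact fun h => absurd h List.not_mem_nil
      | exact fun h => (e1 h).1
      | exact fun h => (e1 h).2.1
      | exact fun h => (e1 h).2.2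
      | exact fun h => (e2 h).1
      | exact fun h => (e2 h).2
      | exact fun h => e3 h
      | exact fun h h' => (e1 h').1 h
      | exact fun h h' => (e1 h').2.1 h
      | exact fun h h' => (e1 h').2.2 h
      | exact fun h h' => (e2 h').1 h
      | exact fun h h' => (e2 h').2 h
      | exact fun h h' => e3 h' h

end Pool.Agent.MK3
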