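import Pool.Agent.MK3.LemOne
import Pool.Agent.MK3.CaseOne
import Pool.Agent.MK3.CaseTwo
import Pool.Agent.ParBFS.Final

/-! The rooted theorem and `mader(K_3) ≤ 5`. -/

open Classical

namespace Pool.Agent.MK3

open Relation Pool.Agent.ParBFS

variable {V : Type} {R : V → V → Prop}

/-- a set which is not 2-colourable has two vertices -/
theorem exists_other {W : Set V} {m : V} (hR : ∀ v, ¬ R v v) (h : ¬ Colable R W 2) :
    ∃ v ∈ W, v ≠ m := by
  by_contra hcon
  push Not at hcon
  apply h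
  refine ⟨fun _ => 0, fun _ _ => by norm_num, fun v hv => ?_⟩
  have key : ∀ a b, TransGen (fun a b => a ∈ W ∧ b ∈ W ∧ R a b ∧ (0 : ℕ) = 0) a b → False := by
    intro a b hab
    induction hab with
    | single h1 =>
      have h2 := hcon _ h1.1
      have h3 := hcon _ h1.2.1
      rw [h2, h3] at h1
      exact hR _ h1.2.2.1
    | tail _ _ ih => exact ih
  exact key v v hv

/-- THEOREM B. -/
theorem rooted [Finite V] (n : ℕ) : Hyp V n := by
  induction n using Nat.strong_induction_on with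
  | _ n ih =>
    intro R hR W hn hW hs m hm
    have ihW : Hyp V W.ncard := ih _ hn
    by_cases hcr : ∀ v ∈ W, Colable R (W \ {v}) 2
    · by_cases hF : ∀ x, x ∈ W → x ≠ m → ∀ v, v ∈ W → v ≠ x → Rch R (W \ {x}) v m
      · obtain ⟨v, hv, hvm⟩ := exists_other (m := m) hR hW
        have hp := pth_of_rch hvm.symm (hs m hm v hv)
        obtain ⟨b, hmb, hb⟩ := pth_first hp
        have hbW : b ∈ W := by
          rcases hb with rfl | hb
          · exact hv
          · exact hb.1.1
        have hbm : b ≠ m := by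
          rintro rfl
          exact hR _ hmb
        exact lemma_one hR hm hbW hmb
          (cycle_of_crit hR hW hbW hbm hm (hcr b hbW)) hF
      · obtain ⟨A, B, x, hx, hsep⟩ := exists_sep hm hF
        by_cases h1 : Colable (RH R A B x m) (insert x A) 2
        · exact case_two hR hsep hW hcr ihW h1
        · exact case_one hR hsep hs (hcr x hx) ihW h1
    · push Not at hcr
      obtain ⟨v, hvW, hv⟩ := hcr
      exact goal_of_sub hR ihW hs hm hvW hv

theorem mb_K3 : MBK 3 4 := by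
  intro V _ R hR W hW
  obtain ⟨S, hSW, hS, -, hstr⟩ := exists_strong hW
  obtain ⟨r, hr⟩ := nonempty_of_not_colable hS
  obtain ⟨d, hd1, hd2, hd3⟩ := exists_dist hr (fun v hv => hstr r hr v hv)
  have hstr' : ∀ v ∈ S, ReflTransGen (fun a b => a ∈ S ∧ b ∈ S ∧ (Function.swap R) a b) r v := by
    intro v hv
    have h1 := hstr v hv r hr
    have h2 : ReflTransGen (Function.swap (fun a b => a ∈ S ∧ b ∈ S ∧ R a b)) r v :=
      reflTransGen_swap.mpr h1
    have h3 : Function.swap (fun a b => a ∈ S ∧ b ∈ S ∧ R a b) =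
        (fun a b => a ∈ S ∧ b ∈ S ∧ (Function.swap R) a b) := by
      funext a b
      simp only [Function.swap, eq_iff_iff]
      tauto
    rw [h3] at h2
    exact h2
  obtain ⟨e, he1, he2, he3⟩ := exists_dist (R := Function.swap R) hr hstr'
  obtain ⟨i, hi⟩ : ∃ i, ¬ Colable R {v | v ∈ S ∧ d v = i} 2 := by
    by_contra hcon
    push Not at hcon
    apply hS
    have := Colable.levels hd1 hcon
    exact this.mono subset_rfl (by omega)
  obtain ⟨W1, hW1, hW1c, -, hW1s⟩ := exists_strong hi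
  obtain ⟨m, hm, hmin⟩ : ∃ m ∈ W1, ∀ v ∈ W1, e m ≤ e v := by
    obtain ⟨v0, hv0⟩ := nonempty_of_not_colable hW1c
    have hex : ∃ n, ∃ m ∈ W1, e m = n := ⟨_, v0, hv0, rfl⟩
    obtain ⟨m, hm, hme⟩ := Nat.find_spec hex
    exact ⟨m, hm, fun v hv => hme ▸ Nat.find_min' hex ⟨v, hv, rfl⟩⟩
  -- r is not in W1
  have hrW : r ∉ W1 := by
    intro hrW
    obtain ⟨v, hv, hvr⟩ := exists_other (m := r) hR hW1c
    have h1 := hd3 v (hW1 hv).1 hvr
    have h2 := (hW1 hv).2
    have h3 := (hW1 hrW).2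
    omega
  have hmr : m ≠ r := fun h => hrW (h ▸ hm)
  obtain ⟨c, hc, hcm, hT⟩ := rooted (W1.ncard + 1) R hR W1 (Nat.lt_succ_self _) hW1c hW1s m hm
  have hcr : c ≠ r := fun h => hrW (h ▸ hc)
  have h1 : Pth R (W \ W1) r c := by
    refine (hd2 c (hW1 hc).1 hcr).mono ?_
    rintro z ⟨hz, hzd⟩
    refine ⟨hSW hz, fun h => ?_⟩
    have h2 := (hW1 h).2
    have h3 := (hW1 hc).2
    omega
  have h2 : Pth R (W \ W1) m r := by
    refine (he2 m (hW1 hm).1 hmr).swap.mono ?_
    rintro z ⟨hz, hze⟩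
    refine ⟨hSW hz, fun h => ?_⟩
    have := hmin z h
    omega
  have h3 : Pth R (W \ W1) m c := h2.trans ⟨hSW hr, hrW⟩ h1
  exact sub_of_tri (tri_replace hT (fun v hv => hSW (hW1 hv).1) h3 Set.sdiff_subset
    (fun z hz => hz.2))

end Pool.Agent.MK3
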