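import Pool.Agent.MK3.Defs

/-! Menger's theorem for two disjoint paths (directed). -/

open Classical

namespace Pool.Agent.MK3

open Relation Pool.Agent.ParBFS

variable {V : Type} {R : V → V → Prop}

private theorem men_mono {R R' : V → V → Prop} {Z Z' : Set V} (hR : ∀ a b, R a b → R' a b)
    (hZ : ∀ v ∈ Z, v ∈ Z') {a b : V} (h : Rch R Z a b) : Rch R' Z' a b :=
  ReflTransGen.mono (fun _ _ h => ⟨hZ _ h.1, hZ _ h.2.1, hR _ _ h.2.2⟩) _ _ h

private theorem men_flip {R : V → V → Prop} {Z : Set V} {a b : V} (h : Rch R Z a b) :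
    Rch (fun x y => R y x) Z b a := by
  have h1 := h.swap
  exact ReflTransGen.mono (fun _ _ h => ⟨h.2.1, h.1, h.2.2⟩) _ _ h1

/-- a path from `A` to `B` inside `Z` -/
private def MCon (R : V → V → Prop) (Z A B : Set V) : Prop :=
  ∃ a ∈ A, a ∈ Z ∧ ∃ b ∈ B, b ∈ Z ∧ Rch R Z a b

private theorem MCon.mono {R R' : V → V → Prop} {Z A B : Set V} (hR : ∀ a b, R a b → R' a b)
    (h : MCon R Z A B) : MCon R' Z A B := by
  obtain ⟨a, ha, haZ, b, hb, hbZ, h⟩ := h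
  exact ⟨a, ha, haZ, b, hb, hbZ, men_mono hR (fun _ h => h) h⟩

private theorem MCon.flip {R : V → V → Prop} {Z A B : Set V} (h : MCon R Z A B) :
    MCon (fun x y => R y x) Z B A := by
  obtain ⟨a, ha, haZ, b, hb, hbZ, h⟩ := h
  exact ⟨b, hb, hbZ, a, ha, haZ, men_flip h⟩

/-- without one arc -/
private def Rm (R : V → V → Prop) (x y : V) : V → V → Prop := fun a b => R a b ∧ ¬ (a = x ∧ b = y)

/-- step (1) -/
private theorem men_step {R : V → V → Prop} {A B : Set V} {x y s : V}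
    (hs : ¬ MCon (Rm R x y) {v | v ≠ s} A B) (z : V) (h : MCon R {v | v ≠ z} A B) :
    MCon (Rm R x y) {v | v ≠ z} A {s, x} := by
  obtain ⟨a, ha, haz, b, hb, hbz, hab⟩ := h
  by_cases hx : Rch (Rm R x y) {v | v ≠ z} a x ∧ x ≠ z
  · exact ⟨a, ha, haz, x, Or.inr rfl, hx.2, hx.1⟩
  have h1 : ∀ v, Rch R {v | v ≠ z} a v → Rch (Rm R x y) {v | v ≠ z} a v := by
    intro v hv
    induction hv with
    | refl => exact ReflTransGen.refl
    | tail _ hvw ih =>
      refine ih.tail ⟨hvw.1, hvw.2.1, hvw.2.2, ?_⟩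
      rintro ⟨rfl, rfl⟩
      exact hx ⟨ih, hvw.1⟩
  by_cases hsr : Rch (Rm R x y) {v | v ≠ z} a s ∧ s ≠ z
  · exact ⟨a, ha, haz, s, Or.inl rfl, hsr.2, hsr.1⟩
  exfalso
  have h2 : ∀ v, v ≠ z → Rch (Rm R x y) {v | v ≠ z} a v → v ≠ s ∧
      Rch (Rm R x y) {v | v ≠ s} a v := by
    intro v hvz hv
    induction hv with
    | refl =>
      refine ⟨?_, ReflTransGen.refl⟩
      rintro rfl
      exact hsr ⟨ReflTransGen.refl, haz⟩
    | tail hav hvw ih =>
      have h3 := ih hvw.1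
      have h4 : Rch (Rm R x y) {v | v ≠ z} a _ := hav.tail hvw
      refine ⟨?_, ?_⟩
      · rintro rfl
        exact hsr ⟨h4, hvz⟩
      · refine h3.2.tail ⟨h3.1, ?_, hvw.2.2⟩
        rintro rfl
        exact hsr ⟨h4, hvz⟩
  obtain ⟨hbs, hab'⟩ := h2 b hbz (h1 b hab)
  exact hs ⟨a, ha, (h2 a haz ReflTransGen.refl).1, b, hb, hbs, hab'⟩

/-- cut at the end `s` -/
private theorem men_cut {R : V → V → Prop} {P : Set V} {a s : V} (ha : a ∈ P) (hs : s ∈ P)
    (h : Rch R P a s) : ∃ P' : Set V, (∀ v ∈ P', v ∈ P) ∧ a ∈ P' ∧ s ∈ P' ∧ Rch R P' a s ∧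
      ∀ v ∈ P', v ≠ s → a ≠ s ∧ Rch R {v | v ≠ s} a v := by
  set P' : Set V := {v | v ∈ P ∧ (v = s ∨ (a ≠ s ∧ Rch R {v | v ≠ s} a v))} with hP'
  have hsP : s ∈ P' := ⟨hs, Or.inl rfl⟩
  have haP : a ∈ P' := by
    refine ⟨ha, ?_⟩
    by_cases has : a = s
    · exact Or.inl has
    · exact Or.inr ⟨has, ReflTransGen.refl⟩
  have key : ∀ v, Rch R P a v → Rch R P' a s ∨
      (v ≠ s ∧ v ∈ P' ∧ a ≠ s ∧ Rch R {v | v ≠ s} a v ∧ Rch R P' a v) := by
    intro v hv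
    induction hv with
    | refl =>
      by_cases has : a = s
      · left
        rw [← has]
        exact ReflTransGen.refl
      · exact Or.inr ⟨has, haP, has, ReflTransGen.refl, ReflTransGen.refl⟩
    | @tail v w _ hvw ih =>
      rcases ih with ih | ⟨h1, h2, h3, h4, h5⟩
      · exact Or.inl ih
      · by_cases hws : w = s
        · left
          subst hws
          exact h5.tail ⟨h2, hsP, hvw.2.2⟩
        · right
          have h6 : Rch R {v | v ≠ s} a w := h4.tail ⟨h1, hws, hvw.2.2⟩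
          have h7 : w ∈ P' := ⟨hvw.2.1, Or.inr ⟨h3, h6⟩⟩
          exact ⟨hws, h7, h3, h6, h5.tail ⟨h2, h7, hvw.2.2⟩⟩
  refine ⟨P', fun v hv => hv.1, haP, hsP, ?_, ?_⟩
  · rcases key s h with h1 | ⟨h1, -⟩
    · exact h1
    · exact absurd rfl h1
  · intro v hv hvs
    rcases hv.2 with h1 | h1
    · exact absurd h1 hvs
    · exact h1

/-- restrict to the vertices which can be reached -/
private theorem men_reach {R : V → V → Prop} {P : Set V} {a x : V} (ha : a ∈ P)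
    (h : Rch R P a x) : ∃ P' : Set V, (∀ v ∈ P', v ∈ P) ∧ a ∈ P' ∧ x ∈ P' ∧ Rch R P' a x ∧
      ∀ v ∈ P', Rch R P a v := by
  set P' : Set V := {v | v ∈ P ∧ Rch R P a v} with hP'
  have haP : a ∈ P' := ⟨ha, ReflTransGen.refl⟩
  have key : ∀ v, Rch R P a v → v ∈ P' ∧ Rch R P' a v := by
    intro v hv
    induction hv with
    | refl => exact ⟨haP, ReflTransGen.refl⟩
    | @tail v w hav hvw ih =>
      have h1 : w ∈ P' := ⟨hvw.2.1, hav.tail hvw⟩
      exact ⟨h1, ih.2.tail ⟨ih.1, h1, hvw.2.2⟩⟩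
  exact ⟨P', fun v hv => hv.1, haP, (key x h).1, (key x h).2, fun v hv => hv.2⟩

private theorem men_split {R : V → V → Prop} {A : Set V} {s x : V} {Z1 Z2 : Set V}
    (hd : ∀ v ∈ Z1, v ∉ Z2) (h1 : MCon R Z1 A {s, x}) (h2 : MCon R Z2 A {s, x}) :
    ∃ P P' : Set V, (∀ v ∈ P, v ∉ P') ∧ (∃ a ∈ A, a ∈ P ∧ s ∈ P ∧ Rch R P a s) ∧
      ∃ a ∈ A, a ∈ P' ∧ x ∈ P' ∧ Rch R P' a x := by
  obtain ⟨a1, ha1, haZ1, t1, ht1, htZ1, h1⟩ := h1
  obtain ⟨a2, ha2, haZ2, t2, ht2, htZ2, h2⟩ := h2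
  rcases ht1 with ht1 | ht1 <;> rcases ht2 with ht2 | ht2
  · exact absurd (ht2 ▸ htZ2) (hd _ (ht1 ▸ htZ1))
  · rw [Set.mem_singleton_iff] at ht2
    subst ht1
    subst ht2
    exact ⟨Z1, Z2, hd, ⟨a1, ha1, haZ1, htZ1, h1⟩, ⟨a2, ha2, haZ2, htZ2, h2⟩⟩
  · rw [Set.mem_singleton_iff] at ht1
    subst ht1
    subst ht2
    exact ⟨Z2, Z1, fun v hv hv' => hd v hv' hv, ⟨a2, ha2, haZ2, htZ2, h2⟩,
      ⟨a1, ha1, haZ1, htZ1, h1⟩⟩
  · rw [Set.mem_singleton_iff] at ht1 ht2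
    exact absurd (ht2 ▸ htZ2) (hd _ (ht1 ▸ htZ1))

private theorem men_sets [Finite V] [Nonempty V] : ∀ (n : ℕ) (R : V → V → Prop) (A B : Set V),
    {p : V × V | R p.1 p.2}.ncard ≤ n → (∀ z, MCon R {v | v ≠ z} A B) →
    ∃ Z1 Z2 : Set V, (∀ v ∈ Z1, v ∉ Z2) ∧ MCon R Z1 A B ∧ MCon R Z2 A B := by
  intro n
  induction n with
  | zero =>
    intro R A B hn h
    have hR : ∀ a b, ¬ R a b := by
      intro a b hab
      rw [Nat.le_zero, Set.ncard_eq_zero] at hn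
      have h1 : (a, b) ∈ {p : V × V | R p.1 p.2} := hab
      rw [hn] at h1
      exact h1
    have heq : ∀ (Z : Set V) (a b : V), Rch R Z a b → a = b := by
      intro Z a b hab
      induction hab with
      | refl => rfl
      | tail _ h _ => exact absurd h.2.2 (hR _ _)
    obtain ⟨a, ha, -, b, hb, -, hab⟩ := h (Classical.arbitrary V)
    have h1 := heq _ _ _ hab
    subst h1
    obtain ⟨a', ha', haa', b', hb', -, hab'⟩ := h a
    have h2 := heq _ _ _ hab'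
    subst h2
    refine ⟨{a}, {a'}, ?_, ⟨a, ha, rfl, a, hb, rfl, ReflTransGen.refl⟩,
      ⟨a', ha', rfl, a', hb', rfl, ReflTransGen.refl⟩⟩
    rintro v rfl h3
    exact haa' h3.symm
  | succ n ih =>
    intro R A B hn h
    by_cases hR : ∃ x y, R x y
    swap
    · push Not at hR
      refine ih R A B ?_ h
      have : {p : V × V | R p.1 p.2} = ∅ := by
        ext p
        constructor
        · intro hp
          exact absurd hp (hR p.1 p.2)
        · intro hp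
          exact absurd hp (Set.notMem_empty p)
      rw [this, Set.ncard_empty]
      exact Nat.zero_le n
    obtain ⟨x, y, hxy⟩ := hR
    have hcard : {p : V × V | Rm R x y p.1 p.2}.ncard ≤ n := by
      have h1 : {p : V × V | Rm R x y p.1 p.2}.ncard < {p : V × V | R p.1 p.2}.ncard := by
        refine Set.ncard_lt_ncard ⟨fun p hp => hp.1, fun hsub => ?_⟩ (Set.toFinite _)
        have h2 : (x, y) ∈ {p : V × V | R p.1 p.2} := hxy
        exact (hsub h2).2 ⟨rfl, rfl⟩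
      omega
    by_cases hall : ∀ z, MCon (Rm R x y) {v | v ≠ z} A B
    · obtain ⟨Z1, Z2, h1, h2, h3⟩ := ih _ A B hcard hall
      exact ⟨Z1, Z2, h1, h2.mono fun _ _ h => h.1, h3.mono fun _ _ h => h.1⟩
    push Not at hall
    obtain ⟨s, hs⟩ := hall
    -- from `A` to `{s, x}`
    obtain ⟨Z1, Z2, hd, hZ1, hZ2⟩ := ih _ A {s, x} hcard fun z => men_step hs z (h z)
    obtain ⟨P, P', hPP, ⟨a, ha, haP, hsP, has⟩, ⟨a', ha', haP', hxP', hax⟩⟩ :=
      men_split hd hZ1 hZ2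
    -- from `{s, y}` to `B`
    have hflip : ∀ (Z C D : Set V), MCon (Rm (fun x y => R y x) y x) Z C D →
        MCon (Rm R x y) Z D C := by
      intro Z C D h1
      exact h1.flip.mono fun u w h2 => ⟨h2.1, fun h3 => h2.2 ⟨h3.2, h3.1⟩⟩
    have hstep : ∀ z, MCon (Rm R x y) {v | v ≠ z} {s, y} B := by
      intro z
      apply hflip
      refine men_step (fun h1 => hs (hflip _ _ _ h1)) z ?_
      exact (h z).flip
    obtain ⟨Z3, Z4, hd', hZ3, hZ4⟩ := ih _ {s, y} B hcard hstep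
    obtain ⟨Q, Q', hQQ, ⟨b, hb, hbQ, hsQ, hbs⟩, ⟨b', hb', hbQ', hyQ', hby⟩⟩ :=
      men_split hd' hZ3.flip hZ4.flip
    -- cut
    obtain ⟨P1, hP1, haP1, hsP1, has1, hP1v⟩ := men_cut haP hsP has
    obtain ⟨P2, hP2, haP2, hxP2, hax2, hP2v⟩ := men_reach haP' hax
    obtain ⟨Q1, hQ1, hbQ1, hsQ1, hbs1, hQ1v⟩ := men_cut hbQ hsQ hbs
    obtain ⟨Q2, hQ2, hbQ2, hyQ2, hby2, hQ2v⟩ := men_reach hbQ' hby
    have hsP' : s ∉ P' := hPP s hsP
    have hsQ' : s ∉ Q' := hQQ s hsQ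
    have hP2w : ∀ v ∈ P2, v ≠ s := fun v hv h1 => hsP' (h1 ▸ hP2 v hv)
    have hQ2w : ∀ v ∈ Q2, v ≠ s := fun v hv h1 => hsQ' (h1 ▸ hQ2 v hv)
    -- (3)
    have hfrom : ∀ v, v ≠ s → v ∈ P1 ∨ v ∈ P2 → ∃ a ∈ A, a ≠ s ∧
        Rch (Rm R x y) {v | v ≠ s} a v := by
      rintro v hvs (hv | hv)
      · exact ⟨a, ha, hP1v v hv hvs⟩
      · refine ⟨a', ha', hP2w a' haP2, men_mono (fun _ _ h => h) ?_ (hP2v v hv)⟩
        intro w hw h1
        exact hsP' (h1 ▸ hw)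
    have hto : ∀ v, v ≠ s → v ∈ Q1 ∨ v ∈ Q2 → ∃ b ∈ B, b ≠ s ∧
        Rch (Rm R x y) {v | v ≠ s} v b := by
      rintro v hvs (hv | hv)
      · obtain ⟨h1, h2⟩ := hQ1v v hv hvs
        exact ⟨b, hb, h1, men_flip h2⟩
      · refine ⟨b', hb', hQ2w b' hbQ2, men_mono (fun _ _ h => h) ?_ (men_flip (hQ2v v hv))⟩
        intro w hw h1
        exact hsQ' (h1 ▸ hw)
    have h3 : ∀ v, v ≠ s → v ∈ P1 ∨ v ∈ P2 → v ∈ Q1 ∨ v ∈ Q2 → False := by
      intro v hvs hv1 hv2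
      obtain ⟨a0, ha0, h1, h2⟩ := hfrom v hvs hv1
      obtain ⟨b0, hb0, h4, h5⟩ := hto v hvs hv2
      exact hs ⟨a0, ha0, h1, b0, hb0, h4, h2.trans h5⟩
    have hRm : ∀ u w, Rm R x y u w → R u w := fun _ _ h => h.1
    refine ⟨P1 ∪ Q1, P2 ∪ Q2, ?_, ?_, ?_⟩
    · rintro v (hv | hv) (hv' | hv')
      · exact hPP v (hP1 v hv) (hP2 v hv')
      · exact h3 v (hQ2w v hv') (Or.inl hv) (Or.inr hv')
      · exact h3 v (hP2w v hv') (Or.inr hv') (Or.inl hv)
      · exact hQQ v (hQ1 v hv) (hQ2 v hv')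
    · refine ⟨a, ha, Or.inl haP1, b, hb, Or.inr hbQ1, ?_⟩
      exact (men_mono hRm (fun v hv => Or.inl hv) has1).trans
        (men_mono hRm (fun v hv => Or.inr hv) (men_flip hbs1))
    · refine ⟨a', ha', Or.inl haP2, b', hb', Or.inr hbQ2, ?_⟩
      refine ReflTransGen.trans (men_mono hRm (fun v hv => Or.inl hv) hax2) ?_
      refine ReflTransGen.head ⟨Or.inl hxP2, Or.inr hyQ2, hxy⟩ ?_
      exact men_mono hRm (fun v hv => Or.inr hv) (men_flip hby2)

private theorem men_list {R : V → V → Prop} {Z : Set V} {a b : V} (hb : b ∈ Z)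
    (h : Rch R Z a b) : ∃ l : List V, (a :: l).IsChain R ∧ (a :: l).getLast? = some b ∧
      ∀ v ∈ a :: l, v ∈ Z := by
  induction h using ReflTransGen.head_induction_on with
  | refl => exact ⟨[], by simp, by simp, by simpa using hb⟩
  | @head a c hac _ ih =>
    obtain ⟨l, h1, h2, h3⟩ := ih
    refine ⟨c :: l, List.isChain_cons_cons.2 ⟨hac.2.2, h1⟩, ?_, ?_⟩
    · rw [List.getLast?_cons_cons]
      exact h2
    · intro v hv
      rcases List.mem_cons.1 hv with rfl | hv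
      · exact hac.1
      · exact h3 v hv

/-- Menger for two disjoint paths from `A` to `B`: if for every vertex `z` there is a path from `A`
to `B` avoiding `z`, there are two disjoint paths; a path is a nonempty list `l` with first element
in `A` and last element in `B`, which is a chain.
PROOF (Goering). Induction on the number of arcs, for all `A`, `B`. No arcs: a path is a single
vertex of `A ∩ B`; the hypothesis for a vertex `a ∈ A ∩ B` gives a second one. Otherwise let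
`e = (x, y)` be an arc, `R1` = `R` without `e`. If for every `z` there is an `R1`-path from `A` to
`B` avoiding `z`: induction. Otherwise fix `s` such that every `R1`-path from `A` to `B` contains
`s`. (1) For every `z` there is an `R1`-path from `A` to `{s, x}` avoiding `z`. By induction two
disjoint `R1`-paths P from `A` to `s` and P' from `A` to `x`. (2) In the same way two disjoint
`R1`-paths Q from `s` to `B` and Q' from `y` to `B`. (3) `P ∪ P'` meets `Q ∪ Q'` only in `s`: a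
common vertex `v ≠ s` gives an `R1`-path from `A` to `B` which avoids `s`. So P Q (glued at `s`) and
P' e Q' are disjoint. -/
theorem menger2 [Finite V] [Nonempty V] {A B : Set V}
    (h : ∀ z, ∃ a ∈ A, ∃ b ∈ B, a ≠ z ∧ b ≠ z ∧ Rch R {v | v ≠ z} a b) :
    ∃ l1 l2 : List V, l1.IsChain R ∧ l2.IsChain R ∧ (∃ a ∈ A, l1.head? = some a) ∧
      (∃ a ∈ A, l2.head? = some a) ∧ (∃ b ∈ B, l1.getLast? = some b) ∧
      (∃ b ∈ B, l2.getLast? = some b) ∧ (∀ v ∈ l1, v ∉ l2) := by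
  obtain ⟨Z1, Z2, hd, ⟨a1, ha1, haZ1, b1, hb1, hbZ1, h1⟩, ⟨a2, ha2, haZ2, b2, hb2, hbZ2, h2⟩⟩ :=
    men_sets _ R A B le_rfl (fun z => by
      obtain ⟨a, ha, b, hb, haz, hbz, hab⟩ := h z
      exact ⟨a, ha, haz, b, hb, hbz, hab⟩)
  obtain ⟨l1, h11, h12, h13⟩ := men_list hbZ1 h1
  obtain ⟨l2, h21, h22, h23⟩ := men_list hbZ2 h2
  exact ⟨a1 :: l1, a2 :: l2, h11, h21, ⟨a1, ha1, rfl⟩, ⟨a2, ha2, rfl⟩, ⟨b1, hb1, h12⟩,
    ⟨b2, hb2, h22⟩, fun v hv hv' => hd v (h13 v hv) (h23 v hv')⟩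

end Pool.Agent.MK3
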