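import Pool.Agent.MK3.Defs

/-! Paths: basic operations, first part. -/

open Classical

namespace Pool.Agent.MK3

open Relation Pool.Agent.ParBFS

variable {V : Type} {R R' : V → V → Prop}

private theorem chain_rel_PthA {y : V} (l : List V) : ∀ x : V,
    (∀ a b, (a = x ∨ a ∈ l) → (b = y ∨ b ∈ l) → R' a b → R a b) →
    (x :: (l ++ [y])).IsChain R' → (x :: (l ++ [y])).IsChain R := by
  induction l with
  | nil =>
    intro x h hc
    rw [List.nil_append, List.isChain_cons_cons] at hc ⊢
    exact ⟨h x y (Or.inl rfl) (Or.inl rfl) hc.1, List.isChain_singleton _⟩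
  | cons c l ih =>
    intro x h hc
    rw [List.cons_append, List.isChain_cons_cons] at hc ⊢
    refine ⟨h x c (Or.inl rfl) (Or.inr List.mem_cons_self) hc.1, ih c ?_ hc.2⟩
    intro a b ha hb hab
    refine h a b (Or.inr ?_) ?_ hab
    · rcases ha with ha | ha
      · rw [ha]
        exact List.mem_cons_self
      · exact List.mem_cons_of_mem _ ha
    · rcases hb with hb | hb
      · exact Or.inl hb
      · exact Or.inr (List.mem_cons_of_mem _ hb)

private theorem chain_lift_PthA {Z P : Set V} {y : V} (l : List V) : ∀ x : V,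
    (∀ a b, (a = x ∨ a ∈ Z) → (b = y ∨ b ∈ Z) → R' a b → Pth R P a b) →
    (x :: (l ++ [y])).IsChain R' → (∀ z ∈ l, z ∈ Z) → Pth R (Z ∪ P) x y := by
  induction l with
  | nil =>
    intro x h hc _
    rw [List.nil_append, List.isChain_cons_cons] at hc
    exact (h x y (Or.inl rfl) (Or.inl rfl) hc.1).mono Set.subset_union_right
  | cons c l ih =>
    intro x h hc hz
    rw [List.cons_append, List.isChain_cons_cons] at hc
    have hcZ : c ∈ Z := hz c List.mem_cons_self
    have h1 := (h x c (Or.inl rfl) (Or.inr hcZ) hc.1).mono (Set.subset_union_right (s := Z))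
    refine h1.trans (Or.inl hcZ) (ih c ?_ hc.2 fun z hzl => hz z (List.mem_cons_of_mem _ hzl))
    intro a b ha hb hab
    refine h a b (Or.inr ?_) hb hab
    rcases ha with ha | ha
    · rw [ha]
      exact hcZ
    · exact ha

/-- only arcs inside the path matter. PROOF: the same list; `List.IsChain` and every arc `(a, b)` of
the chain `x :: (l ++ [y])` has `a = x ∨ a ∈ l` and `b = y ∨ b ∈ l` (induction on `l` generalizing
`x`, or induction with `List.isChain_cons`). -/
theorem pth_rel {Z : Set V} {x y : V}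
    (h : ∀ a b, (a = x ∨ a ∈ Z) → (b = y ∨ b ∈ Z) → R' a b → R a b) (hp : Pth R' Z x y) :
    Pth R Z x y := by
  obtain ⟨l, hl, hz⟩ := hp
  refine ⟨l, chain_rel_PthA l x ?_ hl, hz⟩
  intro a b ha hb hab
  exact h a b (ha.imp_right (hz a)) (hb.imp_right (hz b)) hab

/-- replace arcs by paths. PROOF: induction on the list `l` of `hp` generalizing `x`: `l = []`:
`h x y`. `l = c :: l'`: `h x c` gives a path to `c ∈ Z`, the rest by induction (its arcs satisfy the
same hypothesis because `a = c` implies `a ∈ Z`), then `Pth.trans` and `Pth.mono`. -/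
theorem pth_lift {Z P : Set V} {x y : V}
    (h : ∀ a b, (a = x ∨ a ∈ Z) → (b = y ∨ b ∈ Z) → R' a b → Pth R P a b) (hp : Pth R' Z x y) :
    Pth R (Z ∪ P) x y := by
  obtain ⟨l, hl, hz⟩ := hp
  exact chain_lift_PthA l x h hl hz

/-- first arc. PROOF: cases on the list. -/
theorem pth_first {Z : Set V} {x y : V} (hp : Pth R Z x y) :
    ∃ c, R x c ∧ (c = y ∨ (c ∈ Z ∧ Pth R Z c y)) := by
  obtain ⟨l, hl, hz⟩ := hp
  cases l with
  | nil =>
    rw [List.nil_append, List.isChain_cons_cons] at hl
    exact ⟨y, hl.1, Or.inl rfl⟩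
  | cons c l =>
    rw [List.cons_append, List.isChain_cons_cons] at hl
    exact ⟨c, hl.1, Or.inr ⟨hz c List.mem_cons_self, l, hl.2,
      fun z hzl => hz z (List.mem_cons_of_mem _ hzl)⟩⟩

/-- last arc. PROOF: `List.eq_nil_or_concat`, or `pth_first` for the reversed relation
(`Pth.swap`). -/
theorem pth_last {Z : Set V} {x y : V} (hp : Pth R Z x y) :
    ∃ c, R c y ∧ (c = x ∨ (c ∈ Z ∧ Pth R Z x c)) := by
  have h1 : Pth (Function.swap R) Z y x := Pth.swap (R := Function.swap R) hp
  obtain ⟨c, hc, h2⟩ := pth_first h1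
  exact ⟨c, hc, h2.imp_right fun h3 => ⟨h3.1, h3.2.swap⟩⟩

end Pool.Agent.MK3
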