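import Pool.Agent.MK3.Cfg
import Pool.Agent.MK3.PthL

/-! One step of the descent of Lemma 1. -/

open Classical

namespace Pool.Agent.MK3

open Relation Pool.Agent.ParBFS

variable {V : Type} {R : V → V → Prop}

/-- last element with a property. -/
theorem exists_last {p : V → Prop} {l : List V} (h : ∃ v ∈ l, p v) :
    ∃ l1 v l2, l = l1 ++ v :: l2 ∧ p v ∧ ∀ u ∈ l2, ¬ p u := by
  induction l with
  | nil =>
    obtain ⟨v, hv, -⟩ := h
    simp at hv
  | cons a l ih =>
    by_cases hl : ∃ v ∈ l, p v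
    · obtain ⟨l1, v, l2, rfl, hv, h2⟩ := ih hl
      exact ⟨a :: l1, v, l2, rfl, hv, h2⟩
    · obtain ⟨v, hv, hpv⟩ := h
      rw [List.mem_cons] at hv
      rcases hv with rfl | hv
      · exact ⟨[], v, l, rfl, hpv, fun u hu hpu => hl ⟨u, hu, hpu⟩⟩
      · exact absurd ⟨v, hv, hpv⟩ hl

/-- first element with a property. -/
theorem exists_first {p : V → Prop} {l : List V} (h : ∃ v ∈ l, p v) :
    ∃ l1 v l2, l = l1 ++ v :: l2 ∧ p v ∧ ∀ u ∈ l1, ¬ p u := by
  induction l with
  | nil =>
    obtain ⟨v, hv, -⟩ := h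
    simp at hv
  | cons a l ih =>
    by_cases ha : p a
    · exact ⟨[], a, l, rfl, ha, fun u hu => by simp at hu⟩
    · have hl : ∃ v ∈ l, p v := by
        obtain ⟨v, hv, hpv⟩ := h
        rw [List.mem_cons] at hv
        rcases hv with rfl | hv
        · exact absurd hpv ha
        · exact ⟨v, hv, hpv⟩
      obtain ⟨l1, v, l2, rfl, hv, h2⟩ := ih hl
      refine ⟨a :: l1, v, l2, rfl, hv, fun u hu => ?_⟩
      rw [List.mem_cons] at hu
      rcases hu with rfl | hu
      · exact ha
      · exact h2 u hu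

/-- One step. PROOF. `L ≠ []`, so its first element is `b` and `q1 ≠ b`. Take a duplicate free path `b, r, m` in `V - q1`
(`pth_of_rch`, `Pth.nodup`). In the list `b :: (r ++ [m])` take the last element `z` in `L` (`exists_last`): the rest `β` ends with `m`. In
`β` take the first element `v` with `v = m ∨ v = q2 ∨ v ∈ X ∨ v ∈ P1 ∨ v ∈ P2` (`exists_first`): `β = G ++ v :: _`, so `LP R z G v`, `G` is duplicate free and
avoids `m, q1, q2, L, X, P1, P2`. `L = s1 ++ z :: s2` (`List.append_of_mem`). If `G` avoids `T`: `cfg_one`. Otherwise let `w` be the first element of `G` in `T`: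
`G = G1 ++ w :: G'`, `T = T1 ++ w :: T2`; let `t` be the last element of `w :: G'` in `w :: T2`: `w :: G' = _ ++ t :: G2`,
`w :: T2 = T3 ++ t :: T4`. `cfg_two`. `s1.length < L.length`. -/
theorem cfg_step [Finite V] {m b : V} {L : List V} (hL : L ≠ []) (h : Cfg R m b L)
    (hF : ∀ x, x ≠ m → ∀ v, v ≠ x → (∃ u, R v u) → Rch R {z | z ≠ x} v m) :
    ∃ L' : List V, L'.length < L.length ∧ Cfg R m b L' := by
  obtain ⟨q1, q2, X, T, P1, P2, h1, h2, h3, h4, h5, h6, h7⟩ := h
  -- the first vertex
  obtain ⟨L0, rfl⟩ : ∃ L0, L = b :: L0 := by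
    cases L with
    | nil => exact absurd rfl hL
    | cons a L0 =>
      rw [List.cons_append, List.head?_cons, Option.some.injEq] at h2
      exact ⟨L0, by rw [h2]⟩
  have hbq : b ≠ q1 := by
    rintro rfl
    simp at h7
  have hmq : q1 ≠ m := by
    rintro rfl
    simp at h7
  have hbm : b ≠ m := by
    rintro rfl
    simp at h7
  have hmL : m ∉ b :: L0 := by
    intro h
    rw [List.nodup_cons] at h7
    refine h7.1 ?_
    simp only [List.mem_cons, List.mem_append] at h ⊢
    tauto
  have hout : ∃ u, R b u := by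
    cases L0 with
    | nil =>
      rw [List.cons_append, List.nil_append] at h1
      exact ⟨q1, (List.isChain_cons_cons.1 h1).1⟩
    | cons c L0 =>
      rw [List.cons_append, List.cons_append] at h1
      exact ⟨c, (List.isChain_cons_cons.1 h1).1⟩
  obtain ⟨r, hr1, hr2, hr3⟩ := (pth_of_rch hbm (hF q1 hmq b hbq hout)).nodup
  have hr4 : ∀ u ∈ r, u ≠ q1 ∧ u ≠ b ∧ u ≠ m := by
    intro u hu
    have h := hr3 u hu
    simp only [Set.mem_sdiff, Set.mem_ofPred_eq, Set.mem_insert_iff, Set.mem_singleton_iff,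
      not_or] at h
    exact ⟨h.1, h.2.1, h.2.2⟩
  have hnod : (b :: (r ++ [m])).Nodup := by
    rw [List.nodup_cons, List.nodup_append]
    refine ⟨?_, hr2, List.nodup_singleton m, ?_⟩
    · simp only [List.mem_append, List.mem_singleton, not_or]
      exact ⟨fun h => (hr4 b h).2.1 rfl, hbm⟩
    · intro u hu w hw
      rw [List.mem_singleton] at hw
      rw [hw]
      exact (hr4 u hu).2.2
  have hq1 : ∀ u ∈ b :: (r ++ [m]), u ≠ q1 := by
    intro u hu
    simp only [List.mem_cons, List.mem_append, List.not_mem_nil, or_false] at hu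
    rcases hu with rfl | hu | rfl
    · exact hbq
    · exact (hr4 u hu).1
    · exact hmq.symm
  -- the last vertex in L
  obtain ⟨l1, z, β, hlz, hz, hβ⟩ := exists_last (p := fun u => u ∈ b :: L0)
    (l := b :: (r ++ [m])) ⟨b, by simp, by simp⟩
  have hmβ : m ∈ β := by
    rcases List.eq_nil_or_concat β with rfl | ⟨β', m', rfl⟩
    · exfalso
      have h8 : (b :: r) ++ [m] = l1 ++ [z] := hlz
      have h9 := List.append_inj_right' h8 rfl
      have h10 : m = z := by simpa using h9
      exact hmL (by rw [h10]; exact hz)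
    · have h8 : (b :: r) ++ [m] = (l1 ++ z :: β') ++ [m'] := by
        rw [List.append_assoc, List.cons_append]
        simpa [List.concat_eq_append] using hlz
      have h9 := List.append_inj_right' h8 rfl
      have h10 : m = m' := by simpa using h9
      rw [h10, List.concat_eq_append]
      simp
  rw [hlz] at hr1 hnod hq1
  have hzc : (z :: β).IsChain R := hr1.right_of_append
  have hzn : (z :: β).Nodup := (List.nodup_append.1 hnod).2.1
  -- the first good vertex
  obtain ⟨G, v, δ, rfl, hv, hG⟩ := exists_first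
    (p := fun u => u = m ∨ u = q2 ∨ u ∈ X ∨ u ∈ P1 ∨ u ∈ P2) (l := β) ⟨m, hmβ, Or.inl rfl⟩
  have hGc : LP R z G v := by
    have h8 : z :: (G ++ v :: δ) = (z :: (G ++ [v])) ++ δ := by simp
    rw [h8] at hzc
    exact hzc.left_of_append
  obtain ⟨hzG, hGn⟩ := List.nodup_cons.1 hzn
  have hGn' : G.Nodup := (List.nodup_append.1 hGn).1
  obtain ⟨s1, s2, hs⟩ := List.append_of_mem hz
  have hlen : s1.length < (b :: L0).length := by
    rw [hs, List.length_append, List.length_cons]
    omega
  refine ⟨s1, hlen, ?_⟩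
  have hGL : ∀ u ∈ G, u ∉ s1 ∧ u ≠ z ∧ u ∉ s2 := by
    intro u hu
    have h8 := hβ u (List.mem_append_left _ hu)
    rw [hs] at h8
    simp only [List.mem_append, List.mem_cons, not_or] at h8
    exact h8
  have hGq : ∀ u ∈ G, u ≠ q1 := fun u hu => hq1 u (by simp [hu])
  have hGo : ∀ u ∈ G, u ≠ m ∧ u ≠ q2 ∧ u ∉ X ∧ u ∉ P1 ∧ u ∉ P2 := by
    intro u hu
    have h8 := hG u hu
    simp only [not_or] at h8
    exact h8
  rw [hs] at h1 h2 h7
  by_cases hT : ∃ u ∈ G, u ∈ T
  · obtain ⟨G1, w, G', hG1, hwT, hG1T⟩ := exists_first (p := fun u => u ∈ T) (l := G) hT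
    obtain ⟨T1, T2, hT12⟩ := List.append_of_mem hwT
    obtain ⟨e1, t, G2, hG2, htT, hG2T⟩ := exists_last (p := fun u => u ∈ w :: T2)
      (l := w :: G') ⟨w, by simp, by simp⟩
    obtain ⟨T3, T4, hT34⟩ := List.append_of_mem htT
    rw [hT12] at h4 h7
    have hG1' : G = G1 ++ (e1 ++ t :: G2) := by rw [hG1, hG2]
    have m1 : ∀ u ∈ G1, u ∈ G := fun u hu => by rw [hG1]; exact List.mem_append_left _ hu
    have m2 : ∀ u ∈ G2, u ∈ G := fun u hu => by rw [hG1']; simp [hu]
    refine cfg_two h1 h2 h3 h4 h5 h6 h7 hT34 (t := t) (G1 := G1) (G2 := G2) (v := v) ?_ ?_ ?_ ?_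
      ?_ hv
    · have h8 : z :: (G ++ [v]) = (z :: (G1 ++ [w])) ++ (G' ++ [v]) := by
        rw [hG1]
        simp
      have h9 : (z :: (G ++ [v])).IsChain R := hGc
      rw [h8] at h9
      exact h9.left_of_append
    · have h8 : z :: (G ++ [v]) = (z :: (G1 ++ e1)) ++ (t :: (G2 ++ [v])) := by
        rw [hG1']
        simp
      have h9 : (z :: (G ++ [v])).IsChain R := hGc
      rw [h8] at h9
      exact h9.right_of_append
    · refine hGn'.sublist ?_
      rw [hG1']
      refine List.Sublist.append_left ?_ G1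
      exact (List.sublist_cons_self t G2).trans (List.sublist_append_right e1 _)
    · intro u hu
      have h8 := hGo u (m1 u hu)
      have h9 := hGL u (m1 u hu)
      have h10 := hGq u (m1 u hu)
      have h11 := hG1T u hu
      rw [hT12] at h11
      simp only [List.mem_append, List.mem_cons, not_or] at h11
      exact ⟨h8.1, h10, h8.2.1, h9.1, h9.2.1, h9.2.2, h8.2.2.1, h11.1, h11.2.1, h11.2.2,
        h8.2.2.2.1, h8.2.2.2.2⟩
    · intro u hu
      have h8 := hGo u (m2 u hu)
      have h9 := hGL u (m2 u hu)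
      have h10 := hGq u (m2 u hu)
      have h11 := hG2T u hu
      simp only [List.mem_cons, not_or] at h11
      exact ⟨h8.1, h10, h8.2.1, h9.1, h9.2.1, h9.2.2, h8.2.2.1, h11.1, h11.2,
        h8.2.2.2.1, h8.2.2.2.2⟩
  · refine cfg_one h1 h2 h3 h4 h5 h6 h7 hGc hGn' (fun u hu => ?_) hv
    have h8 := hGo u hu
    have h9 := hGL u hu
    have h10 := hGq u hu
    exact ⟨h8.1, h10, h8.2.1, h9.1, h9.2.1, h9.2.2, h8.2.2.1, fun h => hT ⟨u, hu, h⟩,
      h8.2.2.2.1, h8.2.2.2.2⟩

/-- the end of the descent. PROOF: strong induction on the length. -/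
theorem cfg_nil [Finite V] {m b : V} {L : List V} (h : Cfg R m b L)
    (hF : ∀ x, x ≠ m → ∀ v, v ≠ x → (∃ u, R v u) → Rch R {z | z ≠ x} v m) : Cfg R m b [] := by
  have key : ∀ n : ℕ, ∀ L : List V, L.length ≤ n → Cfg R m b L → Cfg R m b [] := by
    intro n
    induction n with
    | zero =>
      intro L hL h
      rw [Nat.le_zero, List.length_eq_zero_iff] at hL
      rw [← hL]
      exact h
    | succ n ih =>
      intro L hL h
      by_cases h0 : L = []
      · rw [← h0]
        exact h
      · obtain ⟨L', h1, h2⟩ := cfg_step h0 h hF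
        exact ih L' (by omega) h2
  exact key L.length L le_rfl h

end Pool.Agent.MK3
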