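import Pool.Agent.MK3.PthL

/-! Case 2: the new arcs. -/

open Classical

namespace Pool.Agent.MK3

open Relation Pool.Agent.ParBFS

variable {V : Type} {R : V → V → Prop}

private theorem tg_TwoNew {r : V → V → Prop} {y : V} : ∀ (l : List V) (x : V),
    (x :: (l ++ [y])).IsChain R →
    (∀ a b, (a = x ∨ a ∈ l) → (b = y ∨ b ∈ l) → R a b → r a b) → TransGen r x y := by
  intro l
  induction l with
  | nil =>
    intro x hc h
    rw [List.nil_append, List.isChain_cons_cons] at hc
    exact TransGen.single (h x y (Or.inl rfl) (Or.inl rfl) hc.1)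
  | cons c l ih =>
    intro x hc h
    rw [List.cons_append, List.isChain_cons_cons] at hc
    refine TransGen.head (h x c (Or.inl rfl) (Or.inr List.mem_cons_self) hc.1) (ih c hc.2 ?_)
    intro a b ha hb hab
    refine h a b (Or.inr ?_) (hb.imp_right (List.mem_cons_of_mem _)) hab
    rcases ha with ha | ha
    · rw [ha]; exact List.mem_cons_self
    · exact List.mem_cons_of_mem _ ha

private theorem stay_TwoNew {A B P : Set V} {y : V} (hAB : ∀ a ∈ A, ∀ b ∈ B, ¬ R a b)
    (hP : ∀ z ∈ P, z ∈ A ∨ z ∈ B) : ∀ (l : List V) (w : V), w ∈ A →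
    (w :: (l ++ [y])).IsChain R → (∀ z ∈ l, z ∈ P) → ∀ z ∈ l, z ∈ A := by
  intro l
  induction l with
  | nil => intro w _ _ _ z hz; exact absurd hz List.not_mem_nil
  | cons c l ih =>
    intro w hw hc hl z hz
    rw [List.cons_append, List.isChain_cons_cons] at hc
    have hcA : c ∈ A := by
      rcases hP c (hl c List.mem_cons_self) with h | h
      · exact h
      · exact absurd hc.1 (hAB w hw c h)
    rcases List.mem_cons.1 hz with h | h
    · rw [h]; exact hcA
    · exact ih c hcA hc.2 (fun z hz => hl z (List.mem_cons_of_mem _ hz)) z h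

/-- PROOF. Let `c` be the 2-colouring from `h1`. `Y = {y ∈ A | c y = c x and there is a path y ⇝ x in A (inner vertices in A) all of whose vertices have the colour c x}` (for example
`Pth R {z | z ∈ A ∧ c z = c x} y x`), `U = {u ∈ B | ∃ y ∈ Y, R u y}`. `Pth R A u x`: first `y`, then the path. `u ∉ Ug`: otherwise `y ∈ Yg`, the arc `x → y` is in `RH` and closes a monochromatic
cycle. Not 2-colourable: let `g` be a 2-colouring of `insert x B` for `RU R U x`; we may assume `g x = c x` (`1 - g` otherwise). Colour `W` by `φ = c` on `A` and `g` on `insert x B`. A monochromatic cycle of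
`R` in `W`: if it avoids `x` it is inside `A` or inside `B` (no arcs from `A` to `B`; `outclosed_cycle` in `ParBFS/K3.lean`), a contradiction to `c` or `g`. If it goes through `x`: take a duplicate free list `l` with
`x :: (l ++ [x])` a monochromatic chain, `x ∉ l` (compare `exists_petal` in `ParBFS/K3.lean`, which gives a petal at `x` inside `{z ∈ W \ {x} | φ z = φ x}`). Once in `A` the list stays in `A`, so `l = l1 ++ l2`, `l1` in `B`, `l2` in `A`. `l2 = []`: a
monochromatic cycle for `g`. `l1 = []`: for `c`. Otherwise the first vertex of `l2` is in `Y`, the last vertex `u` of `l1` is in `U`, and `x, l1, x` is a monochromatic cycle for `g` in `RU R U x`. -/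
theorem two_new {W A B : Set V} {x m : V} (hR : ∀ v, ¬ R v v) (h : Sep R W A B x m)
    (hW : ¬ Colable R W 2) (h1 : Colable (RH R A B x m) (insert x A) 2) :
    ∃ U : Set V, U ⊆ B ∧ (∀ u ∈ U, Pth R A u x) ∧ (∀ u ∈ U, u ∉ Ug R B x m) ∧
      ¬ Colable (RU R U x) (insert x B) 2 := by
  obtain ⟨c, hc1, hc2⟩ := h1
  have hcx : c x < 2 := hc1 x (Or.inl rfl)
  set Zc : Set V := {z | z ∈ A ∧ c z = c x} with hZc
  set U : Set V := {u | u ∈ B ∧ ∃ y, y ∈ Zc ∧ Pth R Zc y x ∧ R u y} with hU
  refine ⟨U, fun u hu => hu.1, ?_, ?_, ?_⟩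
  · rintro u ⟨_, y, hy, hp, huy⟩
    exact (pth_single huy).trans hy.1 (hp.mono fun z hz => hz.1)
  · rintro u ⟨_, y, hy, ⟨l, hl, hlz⟩, huy⟩ hug
    have hyg : y ∈ Yg R A B x m := ⟨hy.1, u, hug, huy⟩
    refine hc2 x (TransGen.head (b := y) ?_ ?_)
    · exact ⟨Or.inl rfl, Or.inr hy.1, Or.inr ⟨rfl, hyg⟩, hy.2.symm⟩
    · refine tg_TwoNew l y hl ?_
      intro a b ha hb hab
      have ha' : a ∈ A ∧ c a = c x := by
        rcases ha with ha | ha
        · rw [ha]; exact hy
        · exact hlz a ha
      have hb' : b ∈ insert x A ∧ c b = c x := by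
        rcases hb with hb | hb
        · rw [hb]; exact ⟨Or.inl rfl, rfl⟩
        · exact ⟨Or.inr (hlz b hb).1, (hlz b hb).2⟩
      exact ⟨Or.inr ha'.1, hb'.1, Or.inl hab, ha'.2.trans hb'.2.symm⟩
  · rintro ⟨g₀, hg₀1, hg₀2⟩
    -- normalize the colouring
    obtain ⟨g, hg1, hg2, hgx⟩ : ∃ g : V → ℕ, (∀ v ∈ insert x B, g v < 2) ∧
        (∀ v, ¬ TransGen (fun a b => a ∈ insert x B ∧ b ∈ insert x B ∧ RU R U x a b ∧
          g a = g b) v v) ∧ g x = c x := by
      have hgx0 : g₀ x < 2 := hg₀1 x (Or.inl rfl)
      by_cases he : g₀ x = c x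
      · exact ⟨g₀, hg₀1, hg₀2, he⟩
      · refine ⟨fun v => 1 - g₀ v, fun v hv => by show 1 - g₀ v < 2; omega, ?_, by
          show 1 - g₀ x = c x; omega⟩
        intro v hv
        refine hg₀2 v (tmono ?_ hv)
        rintro a b ⟨ha, hb, hab, hgab⟩
        refine ⟨ha, hb, hab, ?_⟩
        have h1 := hg₀1 a ha
        have h2 := hg₀1 b hb
        change 1 - g₀ a = 1 - g₀ b at hgab
        omega
    set φ : V → ℕ := fun v => if v ∈ A then c v else g v with hφ
    have hφA : ∀ v ∈ A, φ v = c v := fun v hv => by simp only [hφ, hv, if_true]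
    have hφn : ∀ v, v ∉ A → φ v = g v := fun v hv => by simp only [hφ, hv, if_false]
    have hBA : ∀ v ∈ B, v ∉ A := fun v hv hvA => h.hAB v hvA hv
    have hφx : φ x = c x := by rw [hφn x h.hxA, hgx]
    apply hW
    refine ⟨φ, ?_, ?_⟩
    · intro v hv
      rw [h.hW] at hv
      rcases hv with hv | hv | hv
      · rw [hv, hφx]; exact hcx
      · rw [hφA v hv]; exact hc1 v (Or.inr hv)
      · rw [hφn v (hBA v hv)]; exact hg1 v (Or.inr hv)
    · -- no monochromatic cycles outside `x`
      have hno : ∀ v, ¬ TransGen (fun a b => (a ∈ A ∪ B) ∧ (b ∈ A ∪ B) ∧ R a b ∧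
          φ a = φ b) v v := by
        intro v hv
        have h2 := outclosed_cycle (Z := A) (by
          rintro a b ⟨_, hb, hab, _⟩ ha
          rcases hb with hb | hb
          · exact hb
          · exact absurd hab (h.arc a ha b hb)) hv
        by_cases hvA : v ∈ A
        · refine hc2 v (tmono ?_ h2)
          rintro a b ⟨⟨_, _, hab, he⟩, haA, hbA⟩
          have ha := haA.2 hvA
          have hb := hbA.2 hvA
          rw [hφA a ha, hφA b hb] at he
          exact ⟨Or.inr ha, Or.inr hb, Or.inl hab, he⟩
        · refine hg2 v (tmono ?_ h2)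
          rintro a b ⟨⟨ha', hb', hab, he⟩, haA, hbA⟩
          have ha : a ∉ A := fun ha => hvA (haA.1 ha)
          have hb : b ∉ A := fun hb => hvA (hbA.1 hb)
          rw [hφn a ha, hφn b hb] at he
          exact ⟨Or.inr (ha'.resolve_left ha), Or.inr (hb'.resolve_left hb), Or.inl hab, he⟩
      intro v hv
      set P : Set V := {z | z ∈ A ∪ B ∧ φ z = φ x} with hP
      have hxAB : x ∉ A ∪ B := fun hx => hx.elim h.hxA h.hxB
      have hmemW : ∀ z ∈ W, z ≠ x → z ∈ A ∪ B := by
        intro z hz hzx
        rw [h.hW] at hz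
        exact hz.resolve_left hzx
      have hxP : x ∉ P := fun hx => hxAB hx.1
      have hPno : ∀ v, ¬ TransGen (fun a b => a ∈ P ∧ b ∈ P ∧ R a b) v v := by
        intro v hv
        refine hno v (tmono ?_ hv)
        rintro a b ⟨ha, hb, hab⟩
        exact ⟨ha.1, hb.1, hab, ha.2.trans hb.2.symm⟩
      have hcyc : ∃ v, TransGen (fun a b => a ∈ insert x P ∧ b ∈ insert x P ∧ R a b) v v := by
        by_cases hvx : φ v = φ x
        · refine ⟨v, (transGen_restrict (P := fun z => φ z = φ x) ?_ hvx hv).2⟩
          rintro a b ha ⟨haW, hbW, hab, he⟩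
          have hb : φ b = φ x := he.symm.trans ha
          refine ⟨hb, ?_, ?_, hab⟩
          · by_cases hax : a = x
            · exact Or.inl hax
            · exact Or.inr ⟨hmemW a haW hax, ha⟩
          · by_cases hbx : b = x
            · exact Or.inl hbx
            · exact Or.inr ⟨hmemW b hbW hbx, hb⟩
        · exfalso
          refine hno v (transGen_restrict (P := fun z => φ z ≠ φ x) ?_ hvx hv).2
          rintro a b ha ⟨haW, hbW, hab, he⟩
          have hb : φ b ≠ φ x := fun hb => ha (he.trans hb)
          exact ⟨hb, hmemW a haW (fun hax => ha (by rw [hax])),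
            hmemW b hbW (fun hbx => hb (by rw [hbx])), hab, he⟩
      obtain ⟨l, hl, hlP⟩ := exists_petal hxP hR hPno hcyc
      -- the key induction
      have key : ∀ (l : List V) (z : V), z ∈ insert x B → φ z = φ x →
          (z :: (l ++ [x])).IsChain R → (∀ w ∈ l, w ∈ P) →
          TransGen (fun a b => a ∈ insert x B ∧ b ∈ insert x B ∧ RU R U x a b ∧ g a = g b)
            z x := by
        intro l
        induction l with
        | nil =>
          intro z hz hzx hc _
          rw [List.nil_append, List.isChain_cons_cons] at hc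
          have hzA : z ∉ A := by
            rcases hz with hz | hz
            · rw [hz]; exact h.hxA
            · exact hBA z hz
          refine TransGen.single ⟨hz, Or.inl rfl, Or.inl hc.1, ?_⟩
          rw [← hφn z hzA, ← hφn x h.hxA, hzx]
        | cons w l ih =>
          intro z hz hzx hc hl
          rw [List.cons_append, List.isChain_cons_cons] at hc
          have hwP := hl w List.mem_cons_self
          have hl' : ∀ w ∈ l, w ∈ P := fun w hw => hl w (List.mem_cons_of_mem _ hw)
          have hzA : z ∉ A := by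
            rcases hz with hz | hz
            · rw [hz]; exact h.hxA
            · exact hBA z hz
          rcases hwP.1 with hwA | hwB
          · -- the list stays in `A`
            have hlA := stay_TwoNew (P := P) h.arc (fun z hz => hz.1) l w hwA hc.2 hl'
            have hwc : c w = c x := by rw [← hφA w hwA, hwP.2, hφx]
            have hlc : ∀ z ∈ l, z ∈ Zc := fun z hz =>
              ⟨hlA z hz, by rw [← hφA z (hlA z hz), (hl' z hz).2, hφx]⟩
            rcases hz with hz | hz
            · exfalso
              subst hz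
              refine hc2 z (TransGen.head (b := w) ⟨Or.inl rfl, Or.inr hwA, Or.inl hc.1,
                hwc.symm⟩ (tg_TwoNew l w hc.2 ?_))
              intro a b ha hb hab
              have ha' : a ∈ A ∧ c a = c z := by
                rcases ha with ha | ha
                · rw [ha]; exact ⟨hwA, hwc⟩
                · exact hlc a ha
              have hb' : b ∈ insert z A ∧ c b = c z := by
                rcases hb with hb | hb
                · rw [hb]; exact ⟨Or.inl rfl, rfl⟩
                · exact ⟨Or.inr (hlc b hb).1, (hlc b hb).2⟩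
              exact ⟨Or.inr ha'.1, hb'.1, Or.inl hab, ha'.2.trans hb'.2.symm⟩
            · have hzU : z ∈ U := ⟨hz, w, ⟨hwA, hwc⟩, ⟨l, hc.2, hlc⟩, hc.1⟩
              refine TransGen.single ⟨Or.inr hz, Or.inl rfl, Or.inr ⟨rfl, hzU⟩, ?_⟩
              rw [← hφn z hzA, ← hφn x h.hxA, hzx]
          · refine TransGen.head ?_ (ih w (Or.inr hwB) hwP.2 hc.2 hl')
            refine ⟨hz, Or.inr hwB, Or.inl hc.1, ?_⟩
            rw [← hφn z hzA, ← hφn w (hBA w hwB), hzx, hwP.2]
      exact hg2 x (key l x (Or.inl rfl) rfl hl hlP)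

end Pool.Agent.MK3
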